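import Pool.Agent.Q240.PR.Stm
import Pool.Agent.Y23.G.Ts5
import Pool.Agent.Y23.F.Pr

set_option autoImplicit false
set_option linter.unusedVariables false

/-!
# Project PRG (prime rigidity for L-functions; general version of project PR of helper240): statements of the lemma jobs

The positivity of Weil's form of an L-function determines its coefficients (and the conductor from below), unconditionally.
Every statement is a `def S_xxx : Prop`; prove `theorem xxx : S_xxx` in a file of your own (the hypotheses `h1 : S_yyy` may be used). All are ports of the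
statements of `Pool/Agent/Q240/PR/Stm.lean` (zeta), with bounded multipliers `T` (no factor `1 + v²`), complex coefficients, and the frequencies `log n`.
For an `L : Y23.G.LFun` (degree `L.m`, conductor `L.N`, completed function `L.X`, zero data `Y23.G.zd`, `Y23.G.cc = π m N^(-1/m)`).
-/

open Polynomial Filter Topology Finset MeasureTheory
open Pool.Agent.Q240.PR (Sm S_Poly S_Ker S_Par)

namespace Pool.Agent.Q286.PG

/-- the filter `a → ∞`, `n ≥ C a exp (2 a / m)` -/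
noncomputable def Lm (m C : ℝ) : Filter (ℝ × ℕ) :=
  Filter.comap (fun p : ℝ × ℕ => p.1) atTop ⊓ 𝓟 {p : ℝ × ℕ | ⌈C * p.1 * Real.exp (2 * p.1 / m)⌉₊ ≤ p.2}

/-- entire functions, not zero, with exponential decay on the imaginary axis -/
structure Dec (X : ℂ → ℂ) : Prop where
  diff : Differentiable ℂ X
  ne : ∃ w, X w ≠ 0
  dec : ∃ C κ : ℝ, 0 < κ ∧ ∀ v : ℝ, ‖X (v * Complex.I)‖ ≤ C * Real.exp (-(κ * |v|))

/-- **DecG**: the completed L-function decays exponentially on the line.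
Proof. On the lines `Re w = ± σ` (`σ` large) `L.X (1/2 + w)` is `O(exp (- κ |Im w|))` (Gamma factors, the Dirichlet series is bounded; functional equation); Phragmén and Lindelöf for
`L.X (1/2 + w) exp (± I κ w)` in the strip, it is bounded there by a power of `exp` (`Y23.G.X_all`, `Y23/G/Ts2.lean`). (Part of job EXG-RATELN of helper77.) -/
def S_DecG : Prop := ∀ [L : Y23.G.LFun], Dec fun w => L.X (1 / 2 + w)

/-- **TrXG** (port of `PR.S_TrX`): trial functions: Weil's form is tiny on them, and their transforms converge to `X * TT χ` on the line. Uses `S_DecG`.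
Proof. Let `h > 0` be so small that `c < 2 cc exp (- 2 h / m)`, `E a = exp (2 a / m)`, `H w = L.X (1/2 + w)`. `Y23.G.cut` (`Y23/G/Ts4.lean`; bound of `H`: `Y23.G.X_all`) for `b = a - h`, `R = 1`: `f ∈ Fa (a - h)`, `‖TT f w - H w‖ ≤ C τ`
for `|Re w| ≤ 1`, `τ = exp (B (1 + a) - cc E (a - h))`. `G = f * χ` (`Y23.G.conv_TT`): `TT G = TT f * TT χ`, and `‖TT χ w‖ ≤ C / (1 + ‖w‖)^6` in the strip (integrations by parts), `Hd a G`. At the nodes `v = π k / a`, `|k| > n ≥ C' a E a`: `exp (- κ |v|) ≤ τ`, so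
`‖TT G (v I)‖ ≤ C τ / (1 + |v|)^3`; `Y23.G.F.proj` gives `F ∈ Hn a n` with `‖TT G w - TT F w‖ ≤ C a² τ exp (a |Re w|) / (1 + |Im w|)`. At the zeros `H = 0`, so `‖TT F (ρ - 1/2)‖ ≤ C a² exp a τ / (1 + |Im ρ|)`, `|QQ F| ≤ C a⁴ exp (2 a) τ² ≤ exp (- c E a)`
(`QQ F = ∑ mu TT F w conj (TT F (- conj w))`, both factors are small, no hypothesis on the zeros; `Y23.G.zsummable`). The convergence: `TT F - H TT χ = (TT F - TT G) + (TT f - H) TT χ` on the line. (Compare `Pool/Agent/Q214/XG/RateL.lean`, `EXG-RATELN`.) -/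
def S_TrXG : Prop := ∀ [L : Y23.G.LFun] (c : ℝ), c < 2 * Y23.G.cc (L := L) → ∃ h C : ℝ, 0 < h ∧ 0 < C ∧ ∀ χ : ℝ → ℂ, Sm h χ → ∃ F : ℝ × ℕ → ℝ → ℂ,
  (∀ᶠ p in Lm L.m C, Y23.G.F.Hn p.1 (p.2 : ℕ∞) (F p) ∧ |Y23.G.QQ (D := Y23.G.zd) (F p)| ≤ Real.exp (-(c * Real.exp (2 * p.1 / L.m))) ∧
    Integrable fun v : ℝ => ‖Y23.TT (F p) (v * Complex.I) - L.X (1 / 2 + v * Complex.I) * Y23.TT χ (v * Complex.I)‖ ^ 2) ∧
  Tendsto (fun p => ∫ v : ℝ, ‖Y23.TT (F p) (v * Complex.I) - L.X (1 / 2 + v * Complex.I) * Y23.TT χ (v * Complex.I)‖ ^ 2) (Lm L.m C) (𝓝 0)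

/-- **DetG** (port of `PR.S_Det`, proved in `Pool/Agent/Q193/PR/Det.lean`, with `X` instead of `XX`). Uses `S_Poly` (proved: `Pool.Agent.Q193.PR.Poly`). -/
def S_DetG : Prop := ∀ X : ℂ → ℂ, Dec X → ∀ (h : ℝ) (T : ℝ → ℝ), 0 < h → Continuous T → (∃ B : ℝ, ∀ v, |T v| ≤ B) → (∃ v, 0 < T v) →
  ∃ χ : ℝ → ℂ, Sm h χ ∧ 0 < ∫ v : ℝ, ‖X (v * Complex.I) * Y23.TT χ (v * Complex.I)‖ ^ 2 * T v

/-- **KeyG** (port of `PR.S_Key`, proved in `Pool/Agent/Q211/PR/Key.lean`): uniform detection on a compact family. Uses `S_TrXG`, `S_DetG`, `S_DecG`. The bound `N2 f ≤ 1`: `2 π N2 F = ∫ ‖TT F‖²` is bounded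
(it converges); multiply `f` (finitely many `χ`) by a small constant and make `c0` smaller (compare `Pool/Agent/Q182/PR/KeyP.lean`). -/
def S_KeyG : Prop := ∀ [L : Y23.G.LFun] (c : ℝ), c < 2 * Y23.G.cc (L := L) → ∃ C : ℝ, 0 < C ∧ ∀ (Q : Type) [TopologicalSpace Q] [CompactSpace Q] (T : Q → ℝ → ℝ),
  Continuous (fun x : Q × ℝ => T x.1 x.2) → (∃ B : ℝ, ∀ q v, |T q v| ≤ B) → (∀ q, ∃ v, 0 < T q v) →
    ∃ c0 : ℝ, 0 < c0 ∧ ∀ᶠ p in Lm L.m C, ∀ q : Q, ∃ f : ℝ → ℂ, Y23.G.F.Hn p.1 (p.2 : ℕ∞) f ∧ Y23.N2 f ≤ 1 ∧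
      |Y23.G.QQ (D := Y23.G.zd) f| ≤ Real.exp (-(c * Real.exp (2 * p.1 / L.m))) ∧ c0 ≤ ∫ v : ℝ, ‖Y23.TT f (v * Complex.I)‖ ^ 2 * T q v

/-- the multiplier `κ + Re ∑ x_n n^(- i v)` -/
noncomputable def Tm (x : ℕ → ℂ) (κ v : ℝ) : ℝ := κ + (∑' n : ℕ, x n * Complex.exp (-(Real.log n * v * Complex.I))).re

/-- **PosI** (port of `PR.S_PosC`, proved in `Pool/Agent/Q26/PR/PosC.lean`). Uses `S_Ker`.
Proof. Suppose `T = Tm x κ ≤ 0` everywhere. `T(v) + T(-v) = 2 κ + 2 ∑ Re x_n cos (v log n)`; with `K` from `S_Ker` for `δ = log 2`: `∫ K (T(v) + T(-v)) = 2 κ ∫ K ≥ 0` (termwise), and the integrand is `≤ 0`, so `κ = 0` and `T(v) + T(-v) = 0`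
almost everywhere, so `T = 0` (both summands are `≤ 0`; continuity). Then the even and the odd part vanish: `∑ Re x_n cos (v log n) = 0`, `∑ Im x_n sin (v log n) = 0`. Multiply by `K' cos (v log m)`, `K' sin (v log m)` (`K'` for `δ'` smaller than `log 2`, and than the distance of
`log m` to the other `log n`): the coefficients of `m` vanish. -/
def S_PosI : Prop := ∀ (x : ℕ → ℂ) (κ : ℝ), 0 ≤ κ → x 0 = 0 → x 1 = 0 → (Summable fun n => ‖x n‖) → (0 < κ ∨ ∃ n, x n ≠ 0) → ∃ v : ℝ, 0 < Tm x κ v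

/-- **ParC**: the autocorrelation of `f` in terms of the transform (complex version of `PR.S_Par`, proved in `Pool/Agent/Q223/PR/Par.lean`). -/
def S_ParC : Prop := ∀ (a t : ℝ) (f : ℝ → ℂ), 0 < a → Y23.Fa a f →
  2 * Real.pi * (∫ x : ℝ, f (x + t) * (starRingEnd ℂ) (f x)) = ∫ v : ℝ, (‖Y23.TT f (v * Complex.I)‖ ^ 2 : ℝ) * Complex.exp (-(t * v * Complex.I))

/-- the condition of positivity: Weil's form with the coefficients changed by `x` and the logarithm of the conductor lowered by `κ` is nonnegative in degree `ν` -/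
def PosG [D : Y23.G.ZD] (a : ℝ) (ν : ℕ∞) (x : ℕ → ℂ) (κ : ℝ) : Prop := ∀ f : ℝ → ℂ, Y23.G.F.Hn a ν f →
  2 * (∑' n : ℕ, x n * ∫ y : ℝ, f (y + Real.log n) * (starRingEnd ℂ) (f y)).re + κ * Y23.N2 f ≤ Y23.G.QQ f

/-- **RigI** (port of `PR.S_Rig`, `S_RigP`, proved in `Pool/Agent/Q65/PR/Rig.lean`, `RigP.lean`). Uses `S_KeyG`, `S_PosI`, `S_ParC`.
Proof. `E a = exp (2 a / m)`, `c' = (c + 2 cc) / 2`. Let `Q` be the set of all `(y, M, κ) ∈ (ℕ → ℂ) × [0, 1] × [0, 1]` with `y 0 = y 1 = 0`, `‖y n‖ ≤ M w n` for all `n`, `M ≤ ‖y n‖` for some `n < n0`, `max M κ = 1`: closed in a compact product, so compact.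
`T (y, M, κ) v = Tm y (2⁻¹ * κ) v` is jointly continuous (`Summable w`, dominated convergence), bounded, and positive somewhere (`S_PosI`; if `M > 0` some `y n ≠ 0`). `c0` from `S_KeyG` for `c'`. (i) `κ ≥ 0`: let `s = max M κ > 0`; `f` for `(x / s, M / s, κ / s)`:
`s c0 ≤ ∫ ‖TT f‖² Tm x (κ/2) = 2 π Re ∑ x_n ∫ f (y + log n) conj f + π κ N2 f ≤ π QQ f ≤ π exp (- c' E)` (`S_ParC`, `∫ ‖TT f (v I)‖² = 2 π N2 f`: `t = 0`; the sum and the integral may be exchanged as `∑ ‖x n‖ < ∞`). (ii) `κ < 0`: `f` for `(x / M, 1, 0)`: `M c0 ≤ π (QQ f - κ N2 f) ≤ π (exp (- c' E) - κ)`.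
`K = π / c0`; `π / c0 exp (- c' E) ≤ exp (- c E)` for large `a`. For `ν ≥ n = ⌈C a E⌉₊` use `Hn a n ⊆ Hn a ν`. If `M = 0` and `κ ≤ 0` there is nothing to prove. -/
def S_RigI : Prop := ∀ [L : Y23.G.LFun] (c : ℝ), c < 2 * Y23.G.cc (L := L) → ∃ C : ℝ, 0 < C ∧ ∀ (w : ℕ → ℝ) (n0 : ℕ), Summable w → ∃ K A : ℝ, 0 < K ∧
  ∀ (a : ℝ) (ν : ℕ∞), A ≤ a → ((⌈C * a * Real.exp (2 * a / L.m)⌉₊ : ℕ) : ℕ∞) ≤ ν → ∀ (x : ℕ → ℂ) (M κ : ℝ), 0 ≤ M → x 0 = 0 → x 1 = 0 →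
    (∀ n, ‖x n‖ ≤ M * w n) → (∃ n < n0, M ≤ ‖x n‖) → PosG (D := Y23.G.zd) a ν x κ →
      κ ≤ Real.exp (-(c * Real.exp (2 * a / L.m))) ∧ M ≤ K * max 0 (-κ) + Real.exp (-(c * Real.exp (2 * a / L.m)))

/-- **BndG** (port of `PR.S_Bnd`, proved in `Pool/Agent/Q211/PR/Bnd.lean`, with a constant term `κ` of either sign and complex coefficients). Uses `S_TrXG`, `S_DecG`, `S_Poly`, `S_Ker`, `S_ParC`.
Proof. `h, C` from `S_TrXG` for `c = 0`, `K` from `S_Ker` for `log 2`. For an admissible triple (`a, x, κ`) let `T = Tm x (κ/2)`, `|T| ≤ 2 B`. In the following `≲ ε` means: for every `ε > 0` for large `a` and small `δ`, uniformly in `T`. As in `Bnd`: `∫ φ T ≤ ε` for all `φ ≥ 0` in `L¹` (steps (1) to (5)).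
`∫ K (T(v) + T(-v)) = κ ∫ K`, so (with `K(v) + K(-v)`) `κ ≤ ε`. (6) `∫ φ T ≥ - ε` for `φ ≥ 0` in `L¹`: `φ_k ≤ M_k K`, `∫ (M_k K - φ_k) T ≤ ε`, `∫ (K(v) + K(-v)) T = κ ∫ K ≥ - δ ∫ K` (replace `K` by `K(v) + K(-v)`, an even function, for which also `∫ K sin (s v) = 0`).
(7) So `|∫ φ T| ≤ ε` for all real `φ` in `L¹`, hence for all complex `φ`. (8) `g` smooth with support in a small neighbourhood of `log n0` which contains no other `log n`, `g (log n0) = 1`: `g(t) = ∫ φ(v) exp (- i t v) dv` for all real `t` with `φ ∈ L¹` (Fourier inversion); `∫ φ T = κ/2 g(0) + ∑ (x_n g(log n) + conj x_n g(- log n)) / 2 = x_{n0} / 2`. -/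
def S_BndG : Prop := ∀ [L : Y23.G.LFun], ∃ C : ℝ, 0 < C ∧ ∀ (B ε : ℝ) (n0 : ℕ), 2 ≤ n0 → 0 < ε → ∃ A δ : ℝ, 0 < δ ∧
  ∀ (a : ℝ) (ν : ℕ∞), A ≤ a → ((⌈C * a * Real.exp (2 * a / L.m)⌉₊ : ℕ) : ℕ∞) ≤ ν → ∀ (x : ℕ → ℂ) (κ : ℝ), x 0 = 0 → x 1 = 0 → (Summable fun n => ‖x n‖) →
    ∑' n, ‖x n‖ ≤ B → -δ ≤ κ → κ ≤ B → PosG (D := Y23.G.zd) a ν x κ → κ ≤ ε ∧ ‖x n0‖ ≤ ε

end Pool.Agent.Q286.PG
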