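import Pool.Agent.Q286.PG.Asm2
import Pool.Agent.Q286.XG.EQ2

set_option autoImplicit false

/-!
# Project PRG: power sums of two numbers; the Euler factors with a constant absorbed
-/

open Filter Topology MeasureTheory Complex
open Pool.Agent.Q240 Pool.Agent.Q240.CD
open Pool.Agent.Q286.TR Pool.Agent.Q286.XG

namespace Pool.Agent.Q286.PG

/-- two numbers with given sum `b` and product `p` -/
lemma two_roots {p : ℝ} (hp : 0 ≤ p) {b : ℝ} (hb : |b| ≤ 2 * Real.sqrt p) :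
    ∃ α : Fin 2 → ℂ, (∀ j, ‖α j‖ = Real.sqrt p) ∧ α 0 + α 1 = b ∧ α 0 * α 1 = p := by
  have h1 : b ^ 2 ≤ 4 * p := by
    have h2 := sq_le_sq' (by have := abs_nonneg b; linarith [abs_nonneg b]) hb
    rw [sq_abs, mul_pow, Real.sq_sqrt hp] at h2
    linarith
  set y : ℝ := Real.sqrt (4 * p - b ^ 2) with hy
  have hy2 : y ^ 2 = 4 * p - b ^ 2 := Real.sq_sqrt (by linarith)
  have hn : ∀ s : ℝ, s ^ 2 = 1 → ‖((b : ℂ) + s * y * I) / 2‖ = Real.sqrt p := by
    intro s hs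
    rw [← Real.sqrt_sq (norm_nonneg (((b : ℂ) + s * y * I) / 2))]
    congr 1
    rw [← Complex.normSq_eq_norm_sq, Complex.normSq_apply]
    have e1 : (((b : ℂ) + s * y * I) / 2).re = b / 2 := by simp
    have e2 : (((b : ℂ) + s * y * I) / 2).im = s * y / 2 := by simp
    rw [e1, e2]
    have : s * y / 2 * (s * y / 2) = s ^ 2 * y ^ 2 / 4 := by ring
    rw [this, hs, hy2]
    ring
  have hyc : (y : ℂ) * y = 4 * p - b * b := by
    have : y * y = 4 * p - b * b := by rw [← pow_two, hy2]; ring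
    exact_mod_cast this
  refine ⟨![((b : ℂ) + (1 : ℝ) * y * I) / 2, ((b : ℂ) + (-1 : ℝ) * y * I) / 2], fun j => ?_, ?_, ?_⟩
  · fin_cases j
    · exact hn 1 (by norm_num)
    · exact hn (-1) (by norm_num)
  · simp only [Matrix.cons_val_zero, Matrix.cons_val_one]
    push_cast
    ring
  · simp only [Matrix.cons_val_zero, Matrix.cons_val_one]
    push_cast
    have : ((b : ℂ) + 1 * y * I) / 2 * (((b : ℂ) + -1 * y * I) / 2) = (b * b - (y : ℂ) * y * (I * I)) / 4 := by ring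
    rw [this, Complex.I_mul_I, hyc]
    ring

/-- a sequence with the recursion of the power sums -/
lemma seq_pow {α : Fin 2 → ℂ} {s e : ℂ} (hs : α 0 + α 1 = s) (he : α 0 * α 1 = e) {t : ℕ → ℂ} (h0 : t 0 = 2) (h1 : t 1 = s)
    (hr : ∀ k, t (k + 2) = s * t (k + 1) - e * t k) (k : ℕ) : t k = ∑ j, α j ^ k := by
  have key : ∀ k, t k = α 0 ^ k + α 1 ^ k ∧ t (k + 1) = α 0 ^ (k + 1) + α 1 ^ (k + 1) := by
    intro k
    induction k with
    | zero =>
      refine ⟨?_, ?_⟩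
      · rw [h0]; norm_num
      · rw [zero_add, h1, ← hs]; simp
    | succ k ih =>
      refine ⟨ih.2, ?_⟩
      rw [hr, ih.1, ih.2, ← hs, ← he]
      ring
  rw [(key k).1, Fin.sum_univ_two]

/-- the Euler factors, with a constant -/
theorem OutP.eul {V : ℝ → (ℕ → ℂ) → ℝ → (ℝ → ℂ) → ℝ} {Q0 : ℝ} {R : Prop} {c : ℂ} {E : ℝ → ℝ} {q : ℝ} (H : OutP V Q0 R c E q)
    (hE : Tendsto E atTop atTop) (hE0 : ∀ a, 0 < E a) {b : ℝ} (hb : b < q) : ∃ C : ℝ, 0 < C ∧
    ∀ P : Finset ℕ, (∀ p ∈ P, 2 ≤ p) → ∀ (d : ℕ) (ρ : ℝ), ρ < 1 → ∀ T : ℝ, 0 ≤ T → ∃ K A : ℝ, 0 < K ∧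
      ∀ (a : ℝ) (ν : ℕ∞), A ≤ a → LgX (C * a * E a) ν → ∀ (Q : ℝ) (x : ℕ → ℂ) (α β : ℕ → Fin d → ℂ), 0 < Q →
      (∀ p ∈ P, ∀ j, ‖α p j‖ ≤ ρ ∧ ‖β p j‖ ≤ ρ) → (∀ n, 2 ≤ n → (∀ p ∈ P, ∀ k, n ≠ p ^ k) → x n = 0) →
      (∀ p ∈ P, ∀ k, 1 ≤ k → x (p ^ k) = Real.log p * (∑ j, β p j ^ k - ∑ j, α p j ^ k)) →
      (∀ f, Deg c a ν f → 0 ≤ V Q x a f) →
        Real.log (Q0 / Q) ≤ Real.exp (-(b * E a)) ∧
        ∀ p ∈ P, ∀ k, 1 ≤ k → T * ‖x (p ^ k)‖ ≤ K * max 0 (Real.log (Q / Q0)) + Real.exp (-(b * E a)) := by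
  set b' := (b + q) / 2 with hb'
  have hbb' : b < b' := by rw [hb']; linarith
  obtain ⟨C, hC, -, h1⟩ := H.rig b' (by rw [hb']; linarith)
  refine ⟨C, hC, fun P hP d ρ hρ T hT => ?_⟩
  obtain ⟨K, A, hK, h2⟩ := h1 P hP d ρ hρ
  obtain ⟨A2, hA2⟩ := eventually_atTop.1 (absorb (q := T + 1) (by linarith) hbb' hE)
  refine ⟨(T + 1) * K, max A A2, by positivity, fun a ν ha hν Q x α β hQ hαβ hx0 hx hp => ?_⟩
  obtain ⟨h3, h4⟩ := h2 a ν ((le_max_left _ _).trans ha) hν Q x α β hQ hαβ hx0 hx hp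
  have h5 := hA2 a ((le_max_right _ _).trans ha)
  refine ⟨h3.trans (Real.exp_le_exp.2 (by have := hE0 a; nlinarith)), fun p hp k hk => ?_⟩
  have h6 := h4 p hp k hk
  calc T * ‖x (p ^ k)‖ ≤ (T + 1) * ‖x (p ^ k)‖ := by gcongr; linarith
    _ ≤ (T + 1) * (K * max 0 (Real.log (Q / Q0)) + Real.exp (-(b' * E a))) := by gcongr
    _ = (T + 1) * K * max 0 (Real.log (Q / Q0)) + (T + 1) * Real.exp (-(b' * E a)) := by ring
    _ ≤ _ := by linarith

open UpperHalfPlane hiding I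
open MatrixGroups CongruenceSubgroup
open Pool.Agent.W169.HF (IsForm coef)

section

variable {N : ℕ} {f : CuspForm (Gamma0 N : Subgroup (GL (Fin 2) ℝ)) 2} {w : ℝ}

/-- the traces of Frobenius at a good prime are power sums -/
lemma trF_pow [NeZero N] (hf : IsForm N f w) {p : ℕ} (hp : p.Prime) (hpN : ¬ p ∣ N) :
    ∃ α : Fin 2 → ℂ, (∀ j, ‖α j‖ = Real.sqrt p) ∧ α 0 + α 1 = coef f p ∧ α 0 * α 1 = p ∧ ∀ k, 1 ≤ k → trF N (coef f) (p ^ k) = ∑ j, α j ^ k := by
  have him : (coef f p).im = 0 := hf.real p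
  have hre : (((coef f p).re : ℝ) : ℂ) = coef f p := by
    apply Complex.ext
    · simp
    · simp [him]
  have hb : |(coef f p).re| ≤ 2 * Real.sqrt p := (Complex.abs_re_le_norm _).trans (hf.good p hp hpN)
  obtain ⟨α, h1, h2, h3⟩ := two_roots (Nat.cast_nonneg p) hb
  rw [hre] at h2
  have h3' : α 0 * α 1 = (p : ℂ) := by rw [h3]; simp
  refine ⟨α, h1, h2, h3', ?_⟩
  have hc0 : coef f 0 = 0 := by
    unfold coef
    exact Pool.Agent.W355.UN.coeff_zero0 f
  have hpow : ∀ j, coef f (p ^ (j + 2)) = coef f p * coef f (p ^ (j + 1)) - (p : ℂ) * coef f (p ^ j) := by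
    intro j
    have := hf.pow p j hp
    rwa [if_neg hpN] at this
  have hmin : ∀ k, 1 ≤ k → (p ^ k).minFac = p := fun k hk => hp.pow_minFac (by omega)
  have hdiv : ∀ k, p ^ (k + 2) / p ^ 2 = p ^ k := fun k => by
    rw [pow_add]
    exact Nat.mul_div_cancel _ (by have := hp.pos; positivity)
  have ht1 : trF N (coef f) (p ^ 1) = coef f p := by
    unfold trF
    rw [hmin 1 le_rfl, if_neg hpN, pow_one, Nat.div_eq_of_lt (by nlinarith [hp.one_lt] : p < p ^ 2), hc0]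
    ring
  have ht2 : ∀ k, trF N (coef f) (p ^ (k + 2)) = coef f (p ^ (k + 2)) - (p : ℂ) * coef f (p ^ k) := by
    intro k
    unfold trF
    rw [hmin (k + 2) (by omega), if_neg hpN, hdiv]
  have hone : coef f (p ^ 0) = 1 := by rw [pow_zero]; exact hf.one
  intro k hk
  have key := seq_pow h2 h3' (t := fun k => if k = 0 then 2 else trF N (coef f) (p ^ k)) (by simp) (by
    simp only [one_ne_zero, if_false]
    exact ht1) (fun k => ?_) k
  · rwa [if_neg (by omega)] at key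
  · simp only [Nat.add_eq_zero_iff, OfNat.ofNat_ne_zero, and_false, one_ne_zero, if_false]
    rcases k with _ | k
    · simp only [if_true, zero_add]
      rw [ht1, ht2 0, show 0 + 2 = 0 + 2 from rfl, hpow 0, hone, zero_add, pow_one]
      ring
    · simp only [Nat.add_eq_zero_iff, one_ne_zero, and_false, if_false]
      rw [ht2 (k + 1)]
      rcases k with _ | k
      · rw [show (0 + 1 + 1) = 0 + 2 from rfl, ht2 0, zero_add, ht1]
        have e1 := hpow 1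
        have e0 := hpow 0
        rw [show 1 + 2 = 3 from rfl, show 1 + 1 = 2 from rfl, pow_one] at e1
        rw [hone, zero_add, zero_add, pow_one] at e0
        rw [show 1 + 2 = 3 from rfl, pow_one, e1, zero_add, e0, hone]
        ring
      · rw [show (k + 1 + 1 + 1) = (k + 1) + 2 from rfl, ht2 (k + 1), show (k + 1 + 1) = k + 2 from rfl, ht2 k]
        have e1 := hpow (k + 2)
        have e2 := hpow k
        rw [show k + 2 + 2 = (k + 1) + 1 + 2 by ring] at e1 ⊢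
        rw [e1]
        rw [show k + 2 + 1 = (k + 1) + 2 by ring]
        rw [show k + 2 = k + 2 from rfl]
        linear_combination (-(p : ℂ)) * e2

end

end Pool.Agent.Q286.PG
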