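import Mathlib

set_option autoImplicit false

/-!
# Project PRG: one more lemma job (power sums)
-/

namespace Pool.Agent.Q286.PG

/-- **Pow**: the power sums of two families of `d` numbers in a disc are close if the first `d` of them are.
Proof. Let `A(T) = ∏ (1 - α_j T)`, `B(T) = ∏ (1 - β_j T)`, `S_α = ∑_k (∑_j α_j^(k+1)) T^k = ∑_j α_j / (1 - α_j T)`, so `A S_α = - A'`, `B S_β = - B'` (formal derivatives). With `Δ = B - A`:
`A B (S_β - S_α) = - B' A + A' B = Δ A' - Δ' A`. (1) The coefficients of `Δ` are at most `C M`: Newton's identities (`MvPolynomial.mul_esymm_eq_sum` with `aeval α`), by induction on `k ≤ d`: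
`k e_k = ∑ ± e_{k-i} s_i`, and `|e_k| ≤ 2^d ρ^k`. (Or from `A S_α = - A'`: the coefficient of `T^(k-1)`.) So the polynomial `Δ A' - Δ' A` of degree `≤ 2 d` has coefficients at most `C M`, `C` depending on `d, ρ` only. (2) Divide by the `2 d` factors `1 - γ T`, `|γ| ≤ ρ`:
if `|u_k| ≤ K (k+1)^i ρ^k` for all `k` then `v_k = ∑_{l ≤ k} γ^(k-l) u_l` (the coefficients of the quotient) satisfies `|v_k| ≤ K (k+1)^(i+1) ρ^k`. (The coefficients of a polynomial of degree `≤ 2 d` are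
at most `K ρ^k` with `K = C M max 1 ρ^(-2d)`.) The index `k = 0` is trivial. -/
def S_Pow : Prop := ∀ (d : ℕ) (ρ : ℝ), 0 < ρ → ∃ C : ℝ, 0 < C ∧ ∀ (α β : Fin d → ℂ), (∀ j, ‖α j‖ ≤ ρ) → (∀ j, ‖β j‖ ≤ ρ) → ∀ M : ℝ, 0 ≤ M →
  (∀ k : ℕ, 1 ≤ k → k ≤ d → ‖∑ j, β j ^ k - ∑ j, α j ^ k‖ ≤ M) →
    ∀ k : ℕ, ‖∑ j, β j ^ k - ∑ j, α j ^ k‖ ≤ C * M * ((k : ℝ) + 1) ^ (2 * d) * ρ ^ k

end Pool.Agent.Q286.PG
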