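import Pool.Agent.Q286.PG.Stm
import Pool.Agent.Q286.PG.Stm2
import Pool.Agent.Q286.XG.Rows

set_option autoImplicit false

/-!
# Project PRG: prime rigidity for an L-function, in any normalisation
-/

open Filter Topology MeasureTheory Complex
open Pool.Agent.Q240 Pool.Agent.Q240.CD
open Pool.Agent.Q286.TR Pool.Agent.Q286.XG

namespace Pool.Agent.Q286.PG

/-- the results of the lemma jobs -/
structure JP : Prop where
  rig : S_RigI
  bnd : S_BndG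
  par : S_ParC

/-- the autocorrelation -/
noncomputable def Cr (f : ℝ → ℂ) (t : ℝ) : ℂ := ∫ y : ℝ, f (y + t) * (starRingEnd ℂ) (f y)

/-- Weil's form with the weights changed by `x` and the logarithm of the conductor lowered by `κ` -/
noncomputable def Vx (L : LFunction) (κ : ℝ) (x : ℕ → ℂ) (a : ℝ) (f : ℝ → ℂ) : ℝ :=
  W L a f - 2 * (∑ n ∈ Finset.Icc 2 ⌊Real.exp (2 * a)⌋₊, x n * Cr f (Real.log n)).re - κ * N f

/-- the degree is at least `x` -/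
def LgX (x : ℝ) (ν : ℕ∞) : Prop := ∀ n : ℕ, ν = n → x ≤ n

lemma lgX_iff {x : ℝ} {ν : ℕ∞} : LgX x ν ↔ ((⌈x⌉₊ : ℕ) : ℕ∞) ≤ ν := by
  unfold LgX
  by_cases hν : ν = ⊤
  · rw [hν]
    exact ⟨fun _ => le_top, fun _ n hn => absurd hn.symm (ENat.coe_ne_top n)⟩
  · obtain ⟨n, rfl⟩ := ENat.ne_top_iff_exists.1 hν
    rw [Nat.cast_le, Nat.ceil_le]
    exact ⟨fun h => h n rfl, fun h k hk => by rw [← Nat.cast_injective hk]; exact h⟩

lemma cr_zero {a : ℝ} {f : ℝ → ℂ} (hf : ∀ x : ℝ, a < |x| → f x = 0) {t : ℝ} (ht : 2 * a < t) : Cr f t = 0 := by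
  unfold Cr
  rw [show (fun y : ℝ => f (y + t) * (starRingEnd ℂ) (f y)) = fun _ => 0 from ?_, integral_zero]
  funext y
  by_cases h : a < |y|
  · rw [hf y h, map_zero, mul_zero]
  · rw [not_lt] at h
    have h1 := (abs_le.1 h).1
    have h2 : a < |y + t| := lt_of_lt_of_le (by linarith) (le_abs_self _)
    rw [hf _ h2, zero_mul]

lemma cr_TT (P : S_ParC) {a : ℝ} (ha : 0 < a) {f g : ℝ → ℂ} (hf : Y23.Fa a f) (hg : Y23.Fa a g) (h : ∀ w, Y23.TT g w = Y23.TT f w) (t : ℝ) :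
    Cr g t = Cr f t := by
  have h1 := P a t f ha hf
  have h2 := P a t g ha hg
  simp only [h] at h2
  rw [← h1] at h2
  exact mul_left_cancel₀ (by exact_mod_cast (by positivity : (2 * Real.pi : ℝ) ≠ 0)) h2

lemma N_Cr (f : ℝ → ℂ) : ((Y23.N2 f : ℝ) : ℂ) = Cr f 0 := by
  unfold Y23.N2 Cr
  rw [← integral_complex_ofReal]
  refine integral_congr_ae (Eventually.of_forall fun x => ?_)
  simp only [add_zero]
  rw [Complex.mul_conj, Complex.normSq_eq_norm_sq]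

lemma N2_TT (P : S_ParC) {a : ℝ} (ha : 0 < a) {f g : ℝ → ℂ} (hf : Y23.Fa a f) (hg : Y23.Fa a g) (h : ∀ w, Y23.TT g w = Y23.TT f w) :
    Y23.N2 g = Y23.N2 f := by
  have h1 : ((Y23.N2 g : ℝ) : ℂ) = (Y23.N2 f : ℝ) := by rw [N_Cr, N_Cr, cr_TT P ha hf hg h]
  exact_mod_cast h1

/-- Plancherel -/
lemma planch (P : S_ParC) {a : ℝ} (ha : 0 < a) {f : ℝ → ℂ} (hf : Y23.Fa a f) : 2 * Real.pi * Y23.N2 f = ∫ v : ℝ, ‖Y23.TT f (v * I)‖ ^ 2 := by
  have h1 := P a 0 f ha hf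
  have h2 : ((2 * Real.pi * Y23.N2 f : ℝ) : ℂ) = ((∫ v : ℝ, ‖Y23.TT f (v * I)‖ ^ 2 : ℝ) : ℂ) := by
    push_cast
    rw [N_Cr]
    unfold Cr
    rw [h1, ← integral_complex_ofReal]
    refine integral_congr_ae (Eventually.of_forall fun v => ?_)
    simp
  exact_mod_cast h2

/-- the sum over all `n` is the sum over `n ≤ exp (2 a)` -/
lemma tsum_Cr {a : ℝ} {f : ℝ → ℂ} (hf : ∀ x : ℝ, a < |x| → f x = 0) {x y : ℕ → ℂ} (h0 : y 0 = 0) (h1 : y 1 = 0)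
    (h : ∀ n ∈ Finset.Icc 2 ⌊Real.exp (2 * a)⌋₊, y n = x n) :
    ∑' n : ℕ, y n * Cr f (Real.log n) = ∑ n ∈ Finset.Icc 2 ⌊Real.exp (2 * a)⌋₊, x n * Cr f (Real.log n) := by
  rw [tsum_eq_sum (s := Finset.Icc 2 ⌊Real.exp (2 * a)⌋₊)]
  · exact Finset.sum_congr rfl fun n hn => by rw [h n hn]
  · intro n hn
    rw [Finset.mem_Icc, not_and, not_le] at hn
    by_cases hn2 : 2 ≤ n
    · have h3 := hn hn2
      have h4 : Real.exp (2 * a) < n := (Nat.floor_lt (Real.exp_pos _).le).1 h3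
      have h5 : 2 * a < Real.log n := by
        rw [Real.lt_log_iff_exp_lt (by exact_mod_cast (by omega : 0 < n))]
        exact h4
      rw [cr_zero hf h5, mul_zero]
    · have : n = 0 ∨ n = 1 := by omega
      rcases this with rfl | rfl
      · rw [h0, zero_mul]
      · rw [h1, zero_mul]

/-- the condition of positivity in terms of `PosG` -/
lemma posG_of (P : S_ParC) {L : LFunction} {c : ℂ} {a : ℝ} (ha : 0 < a) {ν : ℕ∞} {κ : ℝ} {x y : ℕ → ℂ} (h0 : y 0 = 0) (h1 : y 1 = 0)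
    (hxy : ∀ n ∈ Finset.Icc 2 ⌊Real.exp (2 * a)⌋₊, y n = x n)
    (h : ∀ f, Deg c a ν f → 0 ≤ Vx L κ x a f) : PosG (D := D1 L) a ν y κ := by
  intro f hf
  obtain ⟨g, hg, hgf⟩ := hn_deg c ha hf
  have hg' := deg_hn ha hg
  have h2 := h g hg
  unfold Vx at h2
  rw [W_eq L ha hg'.hd, CG.QQG_congr (D := D1 L) hgf] at h2
  have h3 := tsum_Cr (f := f) hf.1.2 h0 h1 hxy
  have h4 : ∑ n ∈ Finset.Icc 2 ⌊Real.exp (2 * a)⌋₊, x n * Cr g (Real.log n) = ∑ n ∈ Finset.Icc 2 ⌊Real.exp (2 * a)⌋₊, x n * Cr f (Real.log n) :=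
    Finset.sum_congr rfl fun n _ => by rw [cr_TT P ha hf.1 hg'.1 hgf]
  have h5 : N g = Y23.N2 f := N2_TT P ha hf.1 hg'.1 hgf
  rw [h4, ← h3, h5] at h2
  unfold Cr at h2
  linarith

/-- Cauchy and Schwarz -/
lemma cr_le {f : ℝ → ℂ} (hf : MemLp f 2 volume) (t : ℝ) : ‖Cr f t‖ ≤ Y23.N2 f := by
  have h2 : Integrable (fun x => ‖f x‖ ^ 2) := hf.integrable_norm_pow (by norm_num)
  have h1 : Integrable (fun x => ‖f (x + t)‖ ^ 2) := h2.comp_add_right t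
  have e1 : ∫ x : ℝ, ‖f (x + t)‖ ^ 2 = Y23.N2 f := integral_add_right_eq_self (fun x => ‖f x‖ ^ 2) t
  unfold Cr
  calc ‖∫ y : ℝ, f (y + t) * (starRingEnd ℂ) (f y)‖ ≤ ∫ y : ℝ, (‖f (y + t)‖ ^ 2 + ‖f y‖ ^ 2) / 2 := by
        refine norm_integral_le_of_norm_le ((h1.add h2).div_const 2) (Eventually.of_forall fun y => ?_)
        rw [norm_mul, RCLike.norm_conj]
        nlinarith [sq_nonneg (‖f (y + t)‖ - ‖f y‖)]
    _ = Y23.N2 f := by
        rw [integral_div, integral_add h1 h2, e1]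
        unfold Y23.N2
        ring

section

variable {L : LFunction}

/-- `2 cc` -/
noncomputable def qq (L : LFunction) : ℝ := 2 * Real.pi * L.m * L.Q ^ (-(1 / (L.m : ℝ)))

lemma qq_eq (L : LFunction) : 2 * Y23.G.cc (L := toL L) = qq L := by
  have hQ : 0 < L.Q := lt_of_lt_of_le one_pos L.one_le_Q
  unfold Y23.G.cc qq
  have e : (toL L).N = L.Q := rfl
  have e2 : (toL L).m = L.m := rfl
  rw [e, e2, Real.rpow_def_of_pos hQ]
  have e3 : Real.log L.Q * -(1 / (L.m : ℝ)) = -(Real.log L.Q / L.m) := by ring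
  rw [e3]
  ring

/-- the exponent -/
noncomputable def EE (L : LFunction) (a : ℝ) : ℝ := Real.exp (2 * a / L.m)

/-- **Rigidity, majorised changes.** -/
theorem rigW (J : JP) (c : ℂ) {b : ℝ} (hb : b < qq L) : ∃ C : ℝ, 0 < C ∧ ∀ (w : ℕ → ℝ) (n0 : ℕ), Summable w → ∃ K A : ℝ, 0 < K ∧
    ∀ (a : ℝ) (ν : ℕ∞), A ≤ a → LgX (C * a * EE L a) ν → ∀ (κ : ℝ) (x : ℕ → ℂ) (M : ℝ), 0 ≤ M → (∀ n, 2 ≤ n → ‖x n‖ ≤ M * w n) →
      (∃ n, 2 ≤ n ∧ n < n0 ∧ M ≤ ‖x n‖) → (∀ f, Deg c a ν f → 0 ≤ Vx L κ x a f) →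
        κ ≤ Real.exp (-(b * EE L a)) ∧ M ≤ K * max 0 (-κ) + Real.exp (-(b * EE L a)) := by
  obtain ⟨C, hC, h⟩ := J.rig (L := toL L) b (by rw [qq_eq]; exact hb)
  refine ⟨C, hC, fun w n0 hw => ?_⟩
  obtain ⟨K, A, hK, h1⟩ := h (fun n => |w n|) n0 hw.abs
  refine ⟨K, max A 1, hK, fun a ν ha hν κ x M hM hx hx2 hp => ?_⟩
  have ha0 : 0 < a := lt_of_lt_of_le one_pos ((le_max_right _ _).trans ha)
  have hν' : ((⌈C * a * Real.exp (2 * a / (toL L).m)⌉₊ : ℕ) : ℕ∞) ≤ ν := lgX_iff.1 hν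
  set y : ℕ → ℂ := fun n => if 2 ≤ n then x n else 0 with hy
  have h2 : PosG (D := D1 L) a ν y κ := posG_of J.par ha0 (by simp [hy]) (by simp [hy]) (fun n hn => by
    rw [hy]
    exact if_pos (Finset.mem_Icc.1 hn).1) hp
  refine h1 a ν ((le_max_left _ _).trans ha) hν' y M κ hM (by simp [hy]) (by simp [hy]) (fun n => ?_) ?_ h2
  · by_cases hn : 2 ≤ n
    · simp only [hy, if_pos hn]
      exact (hx n hn).trans (mul_le_mul_of_nonneg_left (le_abs_self _) hM)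
    · simp only [hy, if_neg hn, norm_zero]
      exact mul_nonneg hM (abs_nonneg _)
  · obtain ⟨n, hn, hn0, hn1⟩ := hx2
    exact ⟨n, hn0, by simpa only [hy, if_pos hn] using hn1⟩

/-- **Rigidity, finitely many weights.** -/
theorem rigF (J : JP) (c : ℂ) {b : ℝ} (hb : b < qq L) : ∃ C : ℝ, 0 < C ∧ ∀ k : ℕ, ∃ K A : ℝ, 0 < K ∧
    ∀ (a : ℝ) (ν : ℕ∞), A ≤ a → LgX (C * a * EE L a) ν → ∀ (κ : ℝ) (x : ℕ → ℂ), (∀ n, k < n → x n = 0) →
      (∀ f, Deg c a ν f → 0 ≤ Vx L κ x a f) →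
        κ ≤ Real.exp (-(b * EE L a)) ∧ ∀ n, 2 ≤ n → n ≤ k → ‖x n‖ ≤ K * max 0 (-κ) + Real.exp (-(b * EE L a)) := by
  obtain ⟨C, hC, h⟩ := rigW J c hb
  refine ⟨C, hC, fun k => ?_⟩
  set w : ℕ → ℝ := fun n => if n ≤ k + 2 then 1 else 0 with hw
  have hws : Summable w := by
    refine summable_of_ne_finset_zero (s := Finset.range (k + 3)) fun n hn => ?_
    rw [Finset.mem_range] at hn
    simp only [hw]
    rw [if_neg (by omega)]
  obtain ⟨K, A, hK, h1⟩ := h w (k + 3) hws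
  refine ⟨K, A, hK, fun a ν ha hν κ x hx hp => ?_⟩
  -- the largest change
  obtain ⟨n1, hn1, hmax⟩ := (Finset.Icc 2 (k + 2)).exists_max_image (fun n => ‖x n‖) ⟨2, Finset.mem_Icc.2 ⟨le_rfl, by omega⟩⟩
  rw [Finset.mem_Icc] at hn1
  have h2 := h1 a ν ha hν κ x ‖x n1‖ (norm_nonneg _) (fun n hn => ?_) ⟨n1, hn1.1, by omega, le_rfl⟩ hp
  · refine ⟨h2.1, fun n hn hnk => (hmax n (Finset.mem_Icc.2 ⟨hn, by omega⟩)).trans h2.2⟩
  · simp only [hw]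
    by_cases h3 : n ≤ k + 2
    · rw [if_pos h3, mul_one]
      exact hmax n (Finset.mem_Icc.2 ⟨hn, h3⟩)
    · rw [if_neg h3, hx n (by omega), norm_zero, mul_zero]

/-- **All weights, bounded total change.** -/
theorem bndW (J : JP) (L : LFunction) (c : ℂ) : ∃ C : ℝ, 0 < C ∧ ∀ (B ε : ℝ) (k : ℕ), 0 < ε → ∃ A δ : ℝ, 0 < δ ∧
    ∀ (a : ℝ) (ν : ℕ∞), A ≤ a → LgX (C * a * EE L a) ν → ∀ (κ : ℝ) (x : ℕ → ℂ), -δ ≤ κ →
      ∑ n ∈ Finset.Icc 2 ⌊Real.exp (2 * a)⌋₊, ‖x n‖ ≤ B → (∀ f, Deg c a ν f → 0 ≤ Vx L κ x a f) →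
        κ ≤ ε ∧ ∀ n, 2 ≤ n → n ≤ k → ‖x n‖ ≤ ε := by
  obtain ⟨C, hC, h⟩ := J.bnd (L := toL L)
  refine ⟨C, hC, fun B ε k hε => ?_⟩
  -- one index
  have key : ∀ n0 : ℕ, 2 ≤ n0 → ∃ A δ : ℝ, 0 < δ ∧
      ∀ (a : ℝ) (ν : ℕ∞), A ≤ a → LgX (C * a * EE L a) ν → ∀ (κ : ℝ) (x : ℕ → ℂ), -δ ≤ κ →
      ∑ n ∈ Finset.Icc 2 ⌊Real.exp (2 * a)⌋₊, ‖x n‖ ≤ B → (∀ f, Deg c a ν f → 0 ≤ Vx L κ x a f) → κ ≤ ε ∧ ‖x n0‖ ≤ ε := by
    intro n0 hn0
    obtain ⟨A, δ, hδ, h1⟩ := h (max B (ε + 1)) ε n0 hn0 hε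
    refine ⟨max A (max 1 n0), δ, hδ, fun a ν ha hν κ x hκ hx hp => ?_⟩
    have ha1 : 1 ≤ a := (le_max_left _ _).trans ((le_max_right _ _).trans ha)
    have han : (n0 : ℝ) ≤ a := (le_max_right _ _).trans ((le_max_right _ _).trans ha)
    have ha0 : 0 < a := lt_of_lt_of_le one_pos ha1
    have hν' : ((⌈C * a * Real.exp (2 * a / (toL L).m)⌉₊ : ℕ) : ℕ∞) ≤ ν := lgX_iff.1 hν
    set y : ℕ → ℂ := fun n => if n ∈ Finset.Icc 2 ⌊Real.exp (2 * a)⌋₊ then x n else 0 with hy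
    have hy0 : ∀ n ∉ Finset.Icc 2 ⌊Real.exp (2 * a)⌋₊, y n = 0 := fun n hn => by simp only [hy]; exact if_neg hn
    have hy1 : ∀ n ∈ Finset.Icc 2 ⌊Real.exp (2 * a)⌋₊, y n = x n := fun n hn => by simp only [hy]; exact if_pos hn
    have hys : Summable fun n => ‖y n‖ := summable_of_ne_finset_zero (s := Finset.Icc 2 ⌊Real.exp (2 * a)⌋₊) fun n hn => by
      rw [hy0 n hn, norm_zero]
    have hyt : ∑' n, ‖y n‖ ≤ B := by
      rw [tsum_eq_sum (s := Finset.Icc 2 ⌊Real.exp (2 * a)⌋₊) fun n hn => by rw [hy0 n hn, norm_zero]]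
      refine le_trans (le_of_eq (Finset.sum_congr rfl fun n hn => by rw [hy1 n hn])) hx
    have h2 : PosG (D := D1 L) a ν y κ := posG_of J.par ha0 (hy0 0 (by simp)) (hy0 1 (by simp)) hy1 hp
    -- monotonicity in `κ`
    set κ' := min κ (ε + 1) with hκ'
    have h3 : PosG (D := D1 L) a ν y κ' := by
      intro f hf
      have h4 := h2 f hf
      have h5 : κ' * Y23.N2 f ≤ κ * Y23.N2 f := mul_le_mul_of_nonneg_right (min_le_left _ _) (Y23.N2_nonneg f)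
      linarith
    obtain ⟨h4, h5⟩ := h1 a ν ((le_max_left _ _).trans ha) hν' y κ' (hy0 0 (by simp)) (hy0 1 (by simp)) hys (hyt.trans (le_max_left _ _))
      (le_min hκ (by linarith)) ((min_le_right _ _).trans (le_max_right _ _)) h3
    refine ⟨?_, ?_⟩
    · rcases min_choice κ (ε + 1) with h6 | h6
      · rw [← h6]; exact h4
      · exfalso
        rw [hκ', h6] at h4
        linarith
    · have h6 : n0 ∈ Finset.Icc 2 ⌊Real.exp (2 * a)⌋₊ := by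
        refine Finset.mem_Icc.2 ⟨hn0, Nat.le_floor ?_⟩
        linarith [Real.add_one_le_exp (2 * a)]
      rw [← hy1 n0 h6]
      exact h5
  -- finitely many indices
  have key2 : ∀ j : ℕ, ∃ A δ : ℝ, 0 < δ ∧
      ∀ (a : ℝ) (ν : ℕ∞), A ≤ a → LgX (C * a * EE L a) ν → ∀ (κ : ℝ) (x : ℕ → ℂ), -δ ≤ κ →
      ∑ n ∈ Finset.Icc 2 ⌊Real.exp (2 * a)⌋₊, ‖x n‖ ≤ B → (∀ f, Deg c a ν f → 0 ≤ Vx L κ x a f) → κ ≤ ε ∧ ∀ n, 2 ≤ n → n ≤ j + 2 → ‖x n‖ ≤ ε := by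
    intro j
    induction j with
    | zero =>
      obtain ⟨A, δ, hδ, h1⟩ := key 2 le_rfl
      refine ⟨A, δ, hδ, fun a ν ha hν κ x hκ hx hp => ?_⟩
      obtain ⟨h2, h3⟩ := h1 a ν ha hν κ x hκ hx hp
      refine ⟨h2, fun n hn hn2 => ?_⟩
      have : n = 2 := by omega
      rw [this]
      exact h3
    | succ j ih =>
      obtain ⟨A1, δ1, hδ1, h1⟩ := ih
      obtain ⟨A2, δ2, hδ2, h2⟩ := key (j + 3) (by omega)
      refine ⟨max A1 A2, min δ1 δ2, lt_min hδ1 hδ2, fun a ν ha hν κ x hκ hx hp => ?_⟩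
      obtain ⟨h3, h4⟩ := h1 a ν ((le_max_left _ _).trans ha) hν κ x (le_trans (neg_le_neg (min_le_left _ _)) hκ) hx hp
      obtain ⟨-, h5⟩ := h2 a ν ((le_max_right _ _).trans ha) hν κ x (le_trans (neg_le_neg (min_le_right _ _)) hκ) hx hp
      refine ⟨h3, fun n hn hn2 => ?_⟩
      by_cases h6 : n ≤ j + 2
      · exact h4 n hn h6
      · have : n = j + 3 := by omega
        rw [this]
        exact h5
  obtain ⟨A, δ, hδ, h1⟩ := key2 k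
  refine ⟨A, δ, hδ, fun a ν ha hν κ x hκ hx hp => ?_⟩
  obtain ⟨h2, h3⟩ := h1 a ν ha hν κ x hκ hx hp
  exact ⟨h2, fun n hn hn2 => h3 n hn (by omega)⟩

lemma rh1_iff (L : LFunction) : GRH L ↔ ∀ ρ : Y23.G.Zt (D := D1 L), (ρ : ℂ).re = 1 / 2 :=
  ⟨fun h ρ => h ρ ρ.2, fun h s hs => h ⟨s, hs⟩⟩

/-- under the Riemann hypothesis the form is nonnegative -/
lemma W_nonneg (hR : GRH L) {a : ℝ} (ha : 0 < a) {f : ℝ → ℂ} (hf : Y23.G.Hd a f) : 0 ≤ W L a f := by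
  rw [W_eq L ha hf, Y23.G.QQ_eq_SS (D := D1 L) ((rh1_iff L).1 hR)]
  exact Y23.G.SS_nonneg (D := D1 L) f

lemma exp_lin' {δ : ℝ} (hδ : 0 < δ) (K : ℝ) : ∀ᶠ a : ℝ in atTop, K * a ≤ Real.exp (δ * a) := by
  have h1 : Tendsto (fun a : ℝ => Real.exp (δ * a) / (δ * a)) atTop atTop :=
    (Real.tendsto_exp_div_pow_atTop 1 |>.comp (tendsto_id.const_mul_atTop hδ)).congr fun a => by
      simp
  filter_upwards [h1.eventually_ge_atTop (K / δ), eventually_gt_atTop 0] with a ha ha0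
  rw [le_div_iff₀ (by positivity)] at ha
  calc K * a = K / δ * (δ * a) := by field_simp
    _ ≤ _ := ha

/-- if the Riemann hypothesis fails the form is very negative -/
theorem W_neg (c : ℂ) (hR : ¬ GRH L) {C : ℝ} (hC : 0 < C) : ∃ σ A : ℝ, 0 < σ ∧ 1 ≤ A ∧ ∀ (a : ℝ) (ν : ℕ∞), A ≤ a → LgX (C * a * EE L a) ν →
    ∃ f, Deg c a ν f ∧ 0 < N f ∧ W L a f ≤ -(Real.exp (σ * a) * N f) := by
  -- a zero to the right of the line
  have h0 : ∃ s : ℂ, s ∈ (D1 L).Zs ∧ 1 / 2 < s.re := by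
    unfold GRH at hR
    push Not at hR
    obtain ⟨s, hs, hs2⟩ := hR
    rcases lt_or_gt_of_ne hs2 with h | h
    · refine ⟨1 - (starRingEnd ℂ) s, ?_, ?_⟩
      · show L.Λ _ = 0
        rw [L.fe, Complex.conj_conj, hs, map_zero, mul_zero]
      · rw [Complex.sub_re, Complex.conj_re, Complex.one_re]
        linarith
    · exact ⟨s, hs, h⟩
  obtain ⟨s, hs, hs2⟩ := h0
  set σ : ℝ := (s.re - 1 / 2) / 2 with hσ
  have hσ0 : 0 < σ := by rw [hσ]; linarith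
  have hn : Tendsto (fun a : ℝ => ((⌈a ^ 2⌉₊ : ℕ) : ℝ) / a) atTop atTop := by
    refine tendsto_atTop_mono' atTop (f₁ := fun a : ℝ => a) ?_ tendsto_id
    filter_upwards [eventually_gt_atTop 0] with a ha
    rw [le_div_iff₀ ha]
    have := Nat.le_ceil (a ^ 2)
    nlinarith
  have h1 := CG.jb.test (D := D1 L) (fun a => ⌈a ^ 2⌉₊) hn 1 (fun _ => s) (fun i j _ => Subsingleton.elim i j) (fun _ => hs) σ hσ0.le (fun _ => by
    rw [hσ]; linarith)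
  have h3 : ∀ᶠ a : ℝ in atTop, a ≤ C * EE L a := by
    have hm := m_pos L
    have h4 := exp_lin' (δ := 2 / L.m) (by positivity) (1 / C)
    filter_upwards [h4] with a ha
    unfold EE
    have e2 : 2 * a / (L.m : ℝ) = 2 / L.m * a := by ring
    rw [e2]
    calc a = C * (1 / C * a) := by field_simp
      _ ≤ _ := mul_le_mul_of_nonneg_left ha hC.le
  obtain ⟨A, hA⟩ := eventually_atTop.1 (h1.and (h3.and (eventually_ge_atTop 1)))
  refine ⟨2 * σ, max A 1, by linarith, le_max_right _ _, fun a ν ha hν => ?_⟩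
  obtain ⟨⟨f, hf, h4⟩, h6, h7⟩ := hA a ((le_max_left _ _).trans ha)
  have ha0 : 0 < a := lt_of_lt_of_le one_pos h7
  obtain ⟨h8, h9⟩ := h4 fun _ => 1
  simp only [Fin.sum_univ_one, one_mul, norm_one, one_pow, mul_one] at h8 h9
  -- the function has degree at most `ν`
  have h10 : Y23.G.F.Hn a ν (f 0) := by
    have h11 := Tg_Hn ha0 (hf 0)
    refine ⟨h11.1, h11.2.1, fun k hk => h11.2.2 k (lt_of_le_of_lt ?_ hk)⟩
    refine le_trans ?_ (lgX_iff.1 hν)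
    have h12 : a ^ 2 ≤ C * a * EE L a := by nlinarith
    exact_mod_cast Nat.ceil_le_ceil h12
  obtain ⟨g, hg, hgf⟩ := hn_deg c ha0 h10
  have hg' := deg_hn ha0 hg
  have hNg : 0 ≤ N g := Y23.N2_nonneg g
  have hNN : N g = Y23.N2 (f 0) := N2_congr hg'.1 h10.1 hgf
  have e1 : Y23.G.QQ (D := D1 L) (f 0) ≤ -Real.exp (2 * σ * a) := by
    have e2 : (fun x => f 0 x) = f 0 := rfl
    simpa [e2] using h8
  have e3 : Y23.N2 (f 0) ≤ 1 := by simpa using h9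
  have hWg : W L a g = Y23.G.QQ (D := D1 L) (f 0) := by
    rw [W_eq L ha0 hg'.hd, CG.QQG_congr (D := D1 L) hgf]
  refine ⟨g, hg, lt_of_le_of_ne hNg fun h0 => ?_, ?_⟩
  · -- the norm is not zero
    have h12 : ∀ w, Y23.TT g w = 0 := fun w => Y23.TT_zero_of_N2 ha0 hg'.1 h0.symm w
    have h13 : Y23.G.QQ (D := D1 L) g = 0 := by
      unfold Y23.G.QQ Y23.G.GG
      simp [h12]
    rw [← W_eq L ha0 hg'.hd, hWg] at h13
    rw [h13] at e1
    linarith [Real.exp_pos (2 * σ * a)]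
  · rw [hWg, hNN]
    have h13 : Real.exp (2 * σ * a) * Y23.N2 (f 0) ≤ Real.exp (2 * σ * a) * 1 := mul_le_mul_of_nonneg_left e3 (Real.exp_pos _).le
    linarith

end

end Pool.Agent.Q286.PG
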