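import Pool.Agent.Q286.PG.Asm2
import Pool.Agent.Q193.PR.Poly
import Pool.Agent.Q124.PR.Ker
import Pool.Agent.Q223.PR.Par
import Pool.Agent.Q77.PG.Dec
import Pool.Agent.Q176.PG.TrX
import Pool.Agent.Q26.PG.Det
import Pool.Agent.Q26.PG.Key
import Pool.Agent.Q214.PG.PosI
import Pool.Agent.Q214.PG.Par
import Pool.Agent.Q214.PG.RigI
import Pool.Agent.Q214.PG.Pow
import Pool.Agent.Q211.PG.Fin

set_option autoImplicit false

/-!
# Project PRG: all lemmas
-/

open Pool.Agent.Q240.PR (Sm S_Poly S_Ker S_Par)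

namespace Pool.Agent.Q286.PG

theorem a_poly : S_Poly := Pool.Agent.Q193.PR.Poly.poly
theorem a_parR : S_Par := Pool.Agent.Q223.PR.par
theorem a_ker : S_Ker := Pool.Agent.Q124.PR.ker a_parR
theorem a_dec : S_DecG := Pool.Agent.Q77.PG.decG
theorem a_trX : S_TrXG := Pool.Agent.Q176.PG.TrX.trXG a_dec
theorem a_det : S_DetG := Pool.Agent.Q26.PG.Det.detG a_poly
theorem a_key : S_KeyG := Pool.Agent.Q26.PG.Key.keyG a_trX a_det a_dec
theorem a_pos : S_PosI := Pool.Agent.Q214.PG.posI a_ker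
theorem a_par : S_ParC := Pool.Agent.Q214.PG.parC
theorem a_rig : S_RigI := Pool.Agent.Q214.PG.rigI a_key a_pos a_par
theorem a_bnd : S_BndG := Pool.Agent.Q211.PG.bndG a_trX a_dec a_poly a_ker a_par
theorem pw : S_Pow := Pool.Agent.Q214.PG.pow_

theorem jp : JP := ⟨a_rig, a_bnd, a_par⟩

end Pool.Agent.Q286.PG
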