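import Pool.Agent.Q286.PG.Asm

set_option autoImplicit false

/-!
# Project PRG: Euler factors, uniqueness, and the results for a form with free conductor and weights
-/

open Filter Topology MeasureTheory Complex
open Pool.Agent.Q240 Pool.Agent.Q240.CD
open Pool.Agent.Q286.TR Pool.Agent.Q286.XG

namespace Pool.Agent.Q286.PG

section

variable {L : LFunction}

/-- polynomial times geometric -/
lemma summable_pg {ρ : ℝ} (h0 : 0 ≤ ρ) (h1 : ρ < 1) (d : ℕ) : Summable fun k : ℕ => ((k : ℝ) + 1) ^ d * ρ ^ k := by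
  have h2 : Summable fun k : ℕ => ((k : ℝ)) ^ d * ρ ^ k := summable_pow_mul_geometric_of_norm_lt_one d (by rwa [Real.norm_of_nonneg h0])
  rcases h0.eq_or_lt with h | h
  · refine summable_of_ne_finset_zero (s := {0}) fun k hk => ?_
    rw [Finset.mem_singleton] at hk
    rw [← h, zero_pow hk, mul_zero]
  · have h3 := (summable_nat_add_iff 1).2 h2
    refine (h3.mul_left ρ⁻¹).congr fun k => ?_
    rw [pow_succ]
    push_cast
    field_simp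

lemma poly_geo_bdd {ρ : ℝ} (h0 : 0 ≤ ρ) (h1 : ρ < 1) (d : ℕ) : ∃ C : ℝ, 0 < C ∧ ∀ k : ℕ, ((k : ℝ) + 1) ^ d * ρ ^ k ≤ C := by
  have h := summable_pg h0 h1 d
  refine ⟨1 + ∑' k : ℕ, ((k : ℝ) + 1) ^ d * ρ ^ k, ?_, fun k => ?_⟩
  · have : 0 ≤ ∑' k : ℕ, ((k : ℝ) + 1) ^ d * ρ ^ k := tsum_nonneg fun k => by positivity
    linarith
  · have := h.le_tsum k fun j _ => by positivity
    linarith

open Classical in
/-- the majorant for the powers of the primes in `P` -/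
noncomputable def wP (P : Finset ℕ) (C : ℝ) (d : ℕ) (ρ : ℝ) (n : ℕ) : ℝ :=
  ∑ p ∈ P, if n = p ^ (Nat.log p n) then C * (((Nat.log p n : ℕ) : ℝ) + 1) ^ d * ρ ^ (Nat.log p n) else 0

lemma wP_summable {P : Finset ℕ} (hP : ∀ p ∈ P, 2 ≤ p) {C : ℝ} {d : ℕ} {ρ : ℝ} (h0 : 0 ≤ ρ) (h1 : ρ < 1) : Summable (wP P C d ρ) := by
  classical
  unfold wP
  refine summable_sum fun p hp => ?_
  have hp1 : 1 < p := hP p hp
  have hinj : Function.Injective fun k : ℕ => p ^ k := Nat.pow_right_injective hp1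
  rw [← hinj.summable_iff]
  · refine ((summable_pg h0 h1 d).mul_left C).congr fun k => ?_
    simp only [Function.comp]
    rw [Nat.log_pow hp1]
    rw [if_pos rfl, mul_assoc]
  · intro n hn
    refine if_neg fun h => hn ⟨Nat.log p n, h.symm⟩

lemma wP_ge {P : Finset ℕ} (hP : ∀ p ∈ P, 2 ≤ p) {C : ℝ} (hC : 0 ≤ C) {d : ℕ} {ρ : ℝ} (h0 : 0 ≤ ρ) {p : ℕ} (hp : p ∈ P) (k : ℕ) :
    C * ((k : ℝ) + 1) ^ d * ρ ^ k ≤ wP P C d ρ (p ^ k) := by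
  classical
  unfold wP
  have hp1 : 1 < p := hP p hp
  have h : C * ((k : ℝ) + 1) ^ d * ρ ^ k = if p ^ k = p ^ (Nat.log p (p ^ k)) then
      C * (((Nat.log p (p ^ k) : ℕ) : ℝ) + 1) ^ d * ρ ^ (Nat.log p (p ^ k)) else 0 := by
    rw [Nat.log_pow hp1, if_pos rfl]
  rw [h]
  exact Finset.single_le_sum (f := fun q => if p ^ k = q ^ (Nat.log q (p ^ k)) then
      C * (((Nat.log q (p ^ k) : ℕ) : ℝ) + 1) ^ d * ρ ^ (Nat.log q (p ^ k)) else 0) (fun q _ => by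
    split_ifs <;> positivity) hp

lemma wP_nonneg {P : Finset ℕ} {C : ℝ} (hC : 0 ≤ C) {d : ℕ} {ρ : ℝ} (h0 : 0 ≤ ρ) (n : ℕ) : 0 ≤ wP P C d ρ n := by
  classical
  unfold wP
  refine Finset.sum_nonneg fun p _ => ?_
  split_ifs <;> positivity

/-- **Rigidity, Euler factors.** -/
theorem rigE (J : JP) (PW : S_Pow) (c : ℂ) {b : ℝ} (hb : b < qq L) : ∃ C : ℝ, 0 < C ∧ ∀ P : Finset ℕ, (∀ p ∈ P, 2 ≤ p) → ∀ (d : ℕ) (ρ : ℝ), ρ < 1 →
    ∃ K A : ℝ, 0 < K ∧ ∀ (a : ℝ) (ν : ℕ∞), A ≤ a → LgX (C * a * EE L a) ν → ∀ (κ : ℝ) (x : ℕ → ℂ) (α β : ℕ → Fin d → ℂ),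
      (∀ p ∈ P, ∀ j, ‖α p j‖ ≤ ρ ∧ ‖β p j‖ ≤ ρ) → (∀ n, 2 ≤ n → (∀ p ∈ P, ∀ k, n ≠ p ^ k) → x n = 0) →
      (∀ p ∈ P, ∀ k, 1 ≤ k → x (p ^ k) = Real.log p * (∑ j, β p j ^ k - ∑ j, α p j ^ k)) → (∀ f, Deg c a ν f → 0 ≤ Vx L κ x a f) →
        κ ≤ Real.exp (-(b * EE L a)) ∧ ∀ p ∈ P, ∀ k, 1 ≤ k → ‖x (p ^ k)‖ ≤ K * max 0 (-κ) + Real.exp (-(b * EE L a)) := by
  set b' := (b + qq L) / 2 with hb'
  have hbb' : b < b' := by rw [hb']; linarith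
  obtain ⟨C, hC, h⟩ := rigW (L := L) J c (b := b') (by rw [hb']; linarith)
  refine ⟨C, hC, fun P hP d ρ0 hρ0 => ?_⟩
  set ρ : ℝ := max ρ0 (1 / 2) with hρ
  have hρp : 0 < ρ := lt_of_lt_of_le (by norm_num) (le_max_right _ _)
  have hρ1 : ρ < 1 := max_lt hρ0 (by norm_num)
  obtain ⟨D, hD, h1⟩ := PW d ρ hρp
  obtain ⟨B, hB, hB1⟩ := poly_geo_bdd hρp.le hρ1 (2 * d)
  -- a bound for the exponents of the indices
  set n0 : ℕ := (∑ p ∈ P, p ^ d) + 3 with hn0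
  obtain ⟨K, A, hK, h2⟩ := h (wP P D (2 * d) ρ) n0 (wP_summable hP hρp.le hρ1)
  have hE : Tendsto (EE L) atTop atTop :=
    Real.tendsto_exp_atTop.comp (Tendsto.atTop_div_const (m_pos L) (tendsto_id.const_mul_atTop two_pos))
  obtain ⟨A2, hA2⟩ := eventually_atTop.1 (absorb (q := max 1 (D * B)) (lt_of_lt_of_le one_pos (le_max_left _ _)) hbb' hE)
  refine ⟨max 1 (D * B) * K, max A A2, by positivity, fun a ν ha hν κ x α β hαβ hx0 hx hp => ?_⟩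
  have hab := hA2 a ((le_max_right _ _).trans ha)
  -- the largest change
  set S : Finset (ℕ × ℕ) := P ×ˢ Finset.Icc 1 d with hS
  obtain ⟨M, hM0, hM1, hM2⟩ : ∃ M : ℝ, 0 ≤ M ∧ (∀ p ∈ P, ∀ k, 1 ≤ k → k ≤ d → ‖x (p ^ k)‖ ≤ M) ∧ ∃ n, 2 ≤ n ∧ n < n0 ∧ M ≤ ‖x n‖ := by
    by_cases hne : S.Nonempty
    · obtain ⟨⟨p, k⟩, hpk, hmax⟩ := S.exists_max_image (fun z => ‖x (z.1 ^ z.2)‖) hne
      rw [hS, Finset.mem_product, Finset.mem_Icc] at hpk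
      obtain ⟨hpP, hk1, hk2⟩ := hpk
      simp only at hpP hk1 hk2
      refine ⟨‖x (p ^ k)‖, norm_nonneg _, fun q hq j hj1 hj2 => hmax (q, j) ?_, p ^ k, ?_, ?_, le_rfl⟩
      · rw [hS, Finset.mem_product, Finset.mem_Icc]
        exact ⟨hq, hj1, hj2⟩
      · have h3 := hP p hpP
        calc 2 ≤ p := h3
          _ = p ^ 1 := (pow_one p).symm
          _ ≤ p ^ k := Nat.pow_le_pow_right (by omega) hk1
      · have h3 := hP p hpP
        have h3 : p ^ k ≤ p ^ d := Nat.pow_le_pow_right (by omega) hk2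
        have h4 : p ^ d ≤ ∑ q ∈ P, q ^ d := Finset.single_le_sum (f := fun q => q ^ d) (fun _ _ => Nat.zero_le _) hpP
        omega
    · refine ⟨0, le_rfl, fun p hp k hk1 hk2 => absurd ⟨(p, k), ?_⟩ hne, 2, le_rfl, by omega, norm_nonneg _⟩
      rw [hS, Finset.mem_product, Finset.mem_Icc]
      exact ⟨hp, hk1, hk2⟩
  have hlog : ∀ p ∈ P, 0 < Real.log p := fun p hp => Real.log_pos (by
    have : 1 < p := hP p hp
    exact_mod_cast this)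
  -- all changes
  have hall : ∀ p ∈ P, ∀ k : ℕ, 1 ≤ k → ‖x (p ^ k)‖ ≤ D * M * ((k : ℝ) + 1) ^ (2 * d) * ρ ^ k := by
    intro p hpP k hk
    have hl := hlog p hpP
    have e : ∀ k : ℕ, 1 ≤ k → ‖x (p ^ k)‖ = Real.log p * ‖∑ j, β p j ^ k - ∑ j, α p j ^ k‖ := by
      intro k hk
      rw [hx p hpP k hk, norm_mul, Complex.norm_real, Real.norm_of_nonneg hl.le]
    have h3 := h1 (α p) (β p) (fun j => (hαβ p hpP j).1.trans (le_max_left _ _)) (fun j => (hαβ p hpP j).2.trans (le_max_left _ _))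
      (M / Real.log p) (div_nonneg hM0 hl.le) (fun k hk1 hk2 => by
        rw [le_div_iff₀ hl, mul_comm, ← e k hk1]
        exact hM1 p hpP k hk1 hk2) k
    rw [e k hk]
    calc Real.log p * ‖∑ j, β p j ^ k - ∑ j, α p j ^ k‖ ≤ Real.log p * (D * (M / Real.log p) * ((k : ℝ) + 1) ^ (2 * d) * ρ ^ k) :=
          mul_le_mul_of_nonneg_left h3 hl.le
      _ = _ := by field_simp
  have h3 := h2 a ν ((le_max_left _ _).trans ha) hν κ x M hM0 (fun n hn => ?_) hM2 hp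
  · obtain ⟨h4, h5⟩ := h3
    have h6 : Real.exp (-(b' * EE L a)) ≤ Real.exp (-(b * EE L a)) := by
      apply Real.exp_le_exp.2
      have : 0 < EE L a := Real.exp_pos _
      nlinarith
    refine ⟨h4.trans h6, fun p hpP k hk => (hall p hpP k hk).trans ?_⟩
    calc D * M * ((k : ℝ) + 1) ^ (2 * d) * ρ ^ k = D * (((k : ℝ) + 1) ^ (2 * d) * ρ ^ k) * M := by ring
      _ ≤ D * B * M := by gcongr; exact hB1 k
      _ ≤ max 1 (D * B) * M := by gcongr; exact le_max_right _ _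
      _ ≤ max 1 (D * B) * (K * max 0 (-κ) + Real.exp (-(b' * EE L a))) := by gcongr
      _ = max 1 (D * B) * K * max 0 (-κ) + max 1 (D * B) * Real.exp (-(b' * EE L a)) := by ring
      _ ≤ _ := by linarith
  · -- the majorant
    by_cases hn2 : ∀ p ∈ P, ∀ k, n ≠ p ^ k
    · rw [hx0 n hn hn2, norm_zero]
      exact mul_nonneg hM0 (wP_nonneg hD.le hρp.le n)
    · push Not at hn2
      obtain ⟨p, hpP, k, rfl⟩ := hn2
      have hk : 1 ≤ k := by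
        rcases Nat.eq_zero_or_pos k with h4 | h4
        · rw [h4, pow_zero] at hn
          omega
        · exact h4
      calc ‖x (p ^ k)‖ ≤ D * M * ((k : ℝ) + 1) ^ (2 * d) * ρ ^ k := hall p hpP k hk
        _ = M * (D * ((k : ℝ) + 1) ^ (2 * d) * ρ ^ k) := by ring
        _ ≤ M * wP P D (2 * d) ρ (p ^ k) := mul_le_mul_of_nonneg_left (wP_ge hP hD.le hρp.le hpP k) hM0

lemma Vx_le {κ : ℝ} {x : ℕ → ℂ} {a : ℝ} {f : ℝ → ℂ} (hf : MemLp f 2 volume) :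
    Vx L κ x a f ≤ W L a f + (2 * ∑ n ∈ Finset.Icc 2 ⌊Real.exp (2 * a)⌋₊, ‖x n‖ - κ) * N f := by
  unfold Vx
  have h1 : ‖∑ n ∈ Finset.Icc 2 ⌊Real.exp (2 * a)⌋₊, x n * Cr f (Real.log n)‖ ≤ (∑ n ∈ Finset.Icc 2 ⌊Real.exp (2 * a)⌋₊, ‖x n‖) * N f := by
    rw [Finset.sum_mul]
    refine (norm_sum_le _ _).trans (Finset.sum_le_sum fun n _ => ?_)
    rw [norm_mul]
    exact mul_le_mul_of_nonneg_left (cr_le hf _) (norm_nonneg _)
  have h2 := (abs_le.1 ((Complex.abs_re_le_norm _).trans h1)).1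
  linarith

lemma exp_grow {ε : ℝ} (hε : 0 < ε) (B : ℝ) : ∀ᶠ a : ℝ in atTop, B ≤ Real.exp (ε * a) :=
  (Real.tendsto_exp_atTop.comp (tendsto_id.const_mul_atTop hε)).eventually_ge_atTop B

/-- changes of subexponential size do not repair the positivity -/
theorem rep (c : ℂ) {C : ℝ} (hC : 0 < C) : GRH L ↔ ∀ ε : ℝ, 0 < ε → ∀ A : ℝ, ∃ (a : ℝ) (ν : ℕ∞) (κ : ℝ) (x : ℕ → ℂ),
    A ≤ a ∧ LgX (C * a * EE L a) ν ∧ -Real.exp (ε * a) ≤ κ ∧ ∑ n ∈ Finset.Icc 2 ⌊Real.exp (2 * a)⌋₊, ‖x n‖ ≤ Real.exp (ε * a) ∧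
      ∀ f, Deg c a ν f → 0 ≤ Vx L κ x a f := by
  constructor
  · intro hR ε _ A
    refine ⟨max A 1, ⊤, 0, fun _ => 0, le_max_left _ _, fun n hn => absurd hn.symm (ENat.natCast_ne_top n), ?_, ?_, fun f hf => ?_⟩
    · have := Real.exp_pos (ε * max A 1)
      linarith
    · simp only [norm_zero, Finset.sum_const_zero]
      exact (Real.exp_pos _).le
    · have ha : 0 < max A 1 := lt_of_lt_of_le one_pos (le_max_right _ _)
      have := W_nonneg hR ha (deg_hn ha hf).hd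
      unfold Vx
      simpa using this
  · intro hB
    by_contra hR
    obtain ⟨σ, A, hσ, hA1, hA⟩ := W_neg (L := L) c hR hC
    obtain ⟨A2, hA2⟩ := eventually_atTop.1 (exp_grow (ε := σ / 2) (by linarith) 4)
    obtain ⟨a, ν, κ, x, ha, hν, hκ, hx, hp⟩ := hB (σ / 2) (by linarith) (max A A2)
    have ha0 : 0 < a := lt_of_lt_of_le one_pos (hA1.trans ((le_max_left _ _).trans ha))
    obtain ⟨f, hf, h0, h1⟩ := hA a ν ((le_max_left _ _).trans ha) hν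
    have h2 := hp f hf
    have h3 := Vx_le (L := L) (κ := κ) (x := x) (a := a) (deg_hn ha0 hf).1.1
    have h6 := hA2 a ((le_max_right _ _).trans ha)
    have h7 : Real.exp (σ * a) = Real.exp (σ / 2 * a) * Real.exp (σ / 2 * a) := by
      rw [← Real.exp_add]
      congr 1
      ring
    have h5 : (2 * ∑ n ∈ Finset.Icc 2 ⌊Real.exp (2 * a)⌋₊, ‖x n‖ - κ) * N f ≤ 3 * Real.exp (σ / 2 * a) * N f :=
      mul_le_mul_of_nonneg_right (by linarith) h0.le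
    have h8 : 4 * Real.exp (σ / 2 * a) * N f ≤ Real.exp (σ * a) * N f := by
      rw [h7]
      gcongr
    have h9 : 0 < Real.exp (σ / 2 * a) * N f := mul_pos (Real.exp_pos _) h0
    linarith

/-- **Uniqueness.** -/
theorem uniq (c : ℂ) {C : ℝ} (hC : 0 < C) (h : ∀ (B ε : ℝ) (k : ℕ), 0 < ε → ∃ A δ : ℝ, 0 < δ ∧
    ∀ (a : ℝ) (ν : ℕ∞), A ≤ a → LgX (C * a * EE L a) ν → ∀ (κ : ℝ) (x : ℕ → ℂ), -δ ≤ κ →
      ∑ n ∈ Finset.Icc 2 ⌊Real.exp (2 * a)⌋₊, ‖x n‖ ≤ B → (∀ f, Deg c a ν f → 0 ≤ Vx L κ x a f) →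
        κ ≤ ε ∧ ∀ n, 2 ≤ n → n ≤ k → ‖x n‖ ≤ ε) {κ : ℝ} {x : ℕ → ℂ} (hκ : 0 ≤ κ) (hx : Summable fun n => ‖x n‖) :
    (∀ A : ℝ, ∃ (a : ℝ) (ν : ℕ∞), A ≤ a ∧ LgX (C * a * EE L a) ν ∧ ∀ f, Deg c a ν f → 0 ≤ Vx L κ x a f) ↔
      GRH L ∧ κ = 0 ∧ ∀ n, 2 ≤ n → x n = 0 := by
  constructor
  · intro hp
    have hB : ∀ a : ℝ, ∑ n ∈ Finset.Icc 2 ⌊Real.exp (2 * a)⌋₊, ‖x n‖ ≤ ∑' n, ‖x n‖ := fun a =>
      hx.sum_le_tsum _ fun n _ => norm_nonneg _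
    refine ⟨(rep c hC).2 fun ε hε A => ?_, ?_, fun n hn => ?_⟩
    · obtain ⟨A2, hA2⟩ := eventually_atTop.1 (exp_grow hε (∑' n, ‖x n‖))
      obtain ⟨a, ν, h1, h2, h3⟩ := hp (max A A2)
      exact ⟨a, ν, κ, x, (le_max_left _ _).trans h1, h2, le_trans (neg_nonpos.2 (Real.exp_pos _).le) hκ,
        (hB a).trans (hA2 a ((le_max_right _ _).trans h1)), h3⟩
    · refine le_antisymm (le_of_forall_pos_le_add fun ε hε => ?_) hκ
      obtain ⟨A, δ, hδ, h1⟩ := h (∑' n, ‖x n‖) ε 0 hε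
      obtain ⟨a, ν, h2, h3, h4⟩ := hp A
      rw [zero_add]
      exact (h1 a ν h2 h3 κ x (by linarith) (hB a) h4).1
    · have h5 : ‖x n‖ ≤ 0 := le_of_forall_pos_le_add fun ε hε => by
        obtain ⟨A, δ, hδ, h1⟩ := h (∑' n, ‖x n‖) ε n hε
        obtain ⟨a, ν, h2, h3, h4⟩ := hp A
        rw [zero_add]
        exact (h1 a ν h2 h3 κ x (by linarith) (hB a) h4).2 n hn le_rfl
      exact norm_le_zero_iff.1 h5
  · rintro ⟨hR, rfl, hx0⟩ A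
    refine ⟨max A 1, ⊤, le_max_left _ _, fun n hn => absurd hn.symm (ENat.coe_ne_top n), fun f hf => ?_⟩
    have ha : 0 < max A 1 := lt_of_lt_of_le one_pos (le_max_right _ _)
    have h1 := W_nonneg hR ha (deg_hn ha hf).hd
    unfold Vx
    rw [Finset.sum_eq_zero fun n hn => by rw [hx0 n (Finset.mem_Icc.1 hn).1, zero_mul]]
    simpa using h1

/-- **All conclusions**, for a form `V Q x a f` with conductor `Q` and the weights changed by `x`; `Q0` is the conductor of the L-function,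
`q = 2 cc`, `E a = exp (2 a / m)`. -/
structure OutP (V : ℝ → (ℕ → ℂ) → ℝ → (ℝ → ℂ) → ℝ) (Q0 : ℝ) (R : Prop) (c : ℂ) (E : ℝ → ℝ) (q : ℝ) : Prop where
  rig : ∀ b : ℝ, b < q → ∃ C : ℝ, 0 < C ∧
    (∀ k : ℕ, ∃ K A : ℝ, 0 < K ∧ ∀ (a : ℝ) (ν : ℕ∞), A ≤ a → LgX (C * a * E a) ν → ∀ (Q : ℝ) (x : ℕ → ℂ), 0 < Q →
      (∀ n, k < n → x n = 0) → (∀ f, Deg c a ν f → 0 ≤ V Q x a f) →
        Real.log (Q0 / Q) ≤ Real.exp (-(b * E a)) ∧
        ∀ n, 2 ≤ n → n ≤ k → ‖x n‖ ≤ K * max 0 (Real.log (Q / Q0)) + Real.exp (-(b * E a))) ∧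
    ∀ P : Finset ℕ, (∀ p ∈ P, 2 ≤ p) → ∀ (d : ℕ) (ρ : ℝ), ρ < 1 → ∃ K A : ℝ, 0 < K ∧
      ∀ (a : ℝ) (ν : ℕ∞), A ≤ a → LgX (C * a * E a) ν → ∀ (Q : ℝ) (x : ℕ → ℂ) (α β : ℕ → Fin d → ℂ), 0 < Q →
      (∀ p ∈ P, ∀ j, ‖α p j‖ ≤ ρ ∧ ‖β p j‖ ≤ ρ) → (∀ n, 2 ≤ n → (∀ p ∈ P, ∀ k, n ≠ p ^ k) → x n = 0) →
      (∀ p ∈ P, ∀ k, 1 ≤ k → x (p ^ k) = Real.log p * (∑ j, β p j ^ k - ∑ j, α p j ^ k)) →
      (∀ f, Deg c a ν f → 0 ≤ V Q x a f) →
        Real.log (Q0 / Q) ≤ Real.exp (-(b * E a)) ∧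
        ∀ p ∈ P, ∀ k, 1 ≤ k → ‖x (p ^ k)‖ ≤ K * max 0 (Real.log (Q / Q0)) + Real.exp (-(b * E a))
  bnd : ∃ C : ℝ, 0 < C ∧
    (∀ (B ε : ℝ) (k : ℕ), 0 < ε → ∃ A δ : ℝ, 0 < δ ∧ ∀ (a : ℝ) (ν : ℕ∞), A ≤ a → LgX (C * a * E a) ν →
      ∀ (Q : ℝ) (x : ℕ → ℂ), 0 < Q → Real.log (Q / Q0) ≤ δ → ∑ n ∈ Finset.Icc 2 ⌊Real.exp (2 * a)⌋₊, ‖x n‖ ≤ B →
        (∀ f, Deg c a ν f → 0 ≤ V Q x a f) → Real.log (Q0 / Q) ≤ ε ∧ ∀ n, 2 ≤ n → n ≤ k → ‖x n‖ ≤ ε) ∧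
    (∀ (Q : ℝ) (x : ℕ → ℂ), 0 < Q → Q ≤ Q0 → (Summable fun n => ‖x n‖) →
      ((∀ A : ℝ, ∃ (a : ℝ) (ν : ℕ∞), A ≤ a ∧ LgX (C * a * E a) ν ∧ ∀ f, Deg c a ν f → 0 ≤ V Q x a f) ↔
        R ∧ Q = Q0 ∧ ∀ n, 2 ≤ n → x n = 0)) ∧
    (R ↔ ∀ ε : ℝ, 0 < ε → ∀ A : ℝ, ∃ (a : ℝ) (ν : ℕ∞) (Q : ℝ) (x : ℕ → ℂ), A ≤ a ∧ LgX (C * a * E a) ν ∧
      0 < Q ∧ Real.log (Q / Q0) ≤ Real.exp (ε * a) ∧ ∑ n ∈ Finset.Icc 2 ⌊Real.exp (2 * a)⌋₊, ‖x n‖ ≤ Real.exp (ε * a) ∧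
      ∀ f, Deg c a ν f → 0 ≤ V Q x a f) ∧
    ∀ (k : ℕ) (B : ℝ), Q0 ≤ B → (R ↔ ∀ A : ℝ, ∃ (a : ℝ) (ν : ℕ∞) (Q : ℝ) (x : ℕ → ℂ), A ≤ a ∧ LgX (C * a * E a) ν ∧
      0 < Q ∧ Q ≤ B ∧ (∀ n, k < n → x n = 0) ∧ ∀ f, Deg c a ν f → 0 ≤ V Q x a f)

lemma lgX_mono {x y : ℝ} {ν : ℕ∞} (h : x ≤ y) (hy : LgX y ν) : LgX x ν := fun n hn => h.trans (hy n hn)

theorem outP (J : JP) (PW : S_Pow) {V : ℝ → (ℕ → ℂ) → ℝ → (ℝ → ℂ) → ℝ} {Q0 : ℝ} {R : Prop} {c : ℂ}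
    (hLQ : L.Q = Q0) (hR : R ↔ GRH L)
    (hV : ∀ (Q : ℝ) (x : ℕ → ℂ) (a : ℝ) (f : ℝ → ℂ), 0 < Q → 0 < a → Y23.G.Hd a f →
      V Q x a f = Vx L (Real.log (Q0 / Q)) x a f) :
    OutP V Q0 R c (EE L) (qq L) := by
  have hQ0 : 0 < Q0 := by rw [← hLQ]; exact lt_of_lt_of_le one_pos L.one_le_Q
  have hp' : ∀ {Q : ℝ} {x : ℕ → ℂ} {a : ℝ} {ν : ℕ∞}, 0 < Q → 0 < a → (∀ f, Deg c a ν f → 0 ≤ V Q x a f) →
      ∀ f, Deg c a ν f → 0 ≤ Vx L (Real.log (Q0 / Q)) x a f := by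
    intro Q l a ν hQ ha h f hf
    rw [← hV Q l a f hQ ha (deg_hn ha hf).hd]
    exact h f hf
  have hp2 : ∀ {Q : ℝ} {x : ℕ → ℂ} {a : ℝ} {ν : ℕ∞}, 0 < Q → 0 < a →
      (∀ f, Deg c a ν f → 0 ≤ Vx L (Real.log (Q0 / Q)) x a f) → ∀ f, Deg c a ν f → 0 ≤ V Q x a f := by
    intro Q l a ν hQ ha h f hf
    rw [hV Q l a f hQ ha (deg_hn ha hf).hd]
    exact h f hf
  have hneg : ∀ {Q : ℝ}, 0 < Q → -Real.log (Q0 / Q) = Real.log (Q / Q0) := by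
    intro Q hQ
    rw [← Real.log_inv, inv_div]
  refine ⟨fun b hb => ?_, ?_⟩
  · obtain ⟨C1, hC1, h1⟩ := rigF (L := L) J c hb
    obtain ⟨C2, hC2, h2⟩ := rigE (L := L) J PW c hb
    have hmono1 : ∀ {a : ℝ} {ν : ℕ∞}, 0 < a → LgX (max C1 C2 * a * EE L a) ν → LgX (C1 * a * EE L a) ν := by
      intro a ν ha h
      refine lgX_mono ?_ h
      have h3 := le_max_left C1 C2
      have h4 : 0 < EE L a := Real.exp_pos _
      gcongr
    have hmono2 : ∀ {a : ℝ} {ν : ℕ∞}, 0 < a → LgX (max C1 C2 * a * EE L a) ν → LgX (C2 * a * EE L a) ν := by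
      intro a ν ha h
      refine lgX_mono ?_ h
      have h3 := le_max_right C1 C2
      have h4 : 0 < EE L a := Real.exp_pos _
      gcongr
    refine ⟨max C1 C2, lt_max_of_lt_left hC1, fun k => ?_, fun P hP d ρ hρ => ?_⟩
    · obtain ⟨K, A, hK, h3⟩ := h1 k
      refine ⟨K, max A 1, hK, fun a ν ha hν Q x hQ hx hp => ?_⟩
      have ha0 : 0 < a := lt_of_lt_of_le one_pos ((le_max_right _ _).trans ha)
      obtain ⟨h4, h5⟩ := h3 a ν ((le_max_left _ _).trans ha) (hmono1 ha0 hν) _ _ hx (hp' hQ ha0 hp)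
      rw [hneg hQ] at h5
      exact ⟨h4, h5⟩
    · obtain ⟨K, A, hK, h3⟩ := h2 P hP d ρ hρ
      refine ⟨K, max A 1, hK, fun a ν ha hν Q x α β hQ hαβ hl hl2 hp => ?_⟩
      have ha0 : 0 < a := lt_of_lt_of_le one_pos ((le_max_right _ _).trans ha)
      obtain ⟨h4, h5⟩ := h3 a ν ((le_max_left _ _).trans ha) (hmono2 ha0 hν) _ _ α β hαβ hl hl2 (hp' hQ ha0 hp)
      rw [hneg hQ] at h5
      exact ⟨h4, h5⟩
  · obtain ⟨C1, hC1, h1⟩ := bndW J L c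
    have hq0 : 0 < qq L := by
      rw [← qq_eq]
      have := Y23.G.cc_pos (L := toL L)
      linarith
    obtain ⟨C2, hC2, h2⟩ := rigF (L := L) (b := 0) J c hq0
    set C := max C1 C2 with hCd
    have hC : 0 < C := lt_max_of_lt_left hC1
    have hmono1 : ∀ {a : ℝ} {ν : ℕ∞}, 0 < a → LgX (C * a * EE L a) ν → LgX (C1 * a * EE L a) ν := by
      intro a ν ha h
      refine lgX_mono ?_ h
      have h3 := le_max_left C1 C2
      have h4 : 0 < EE L a := Real.exp_pos _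
      gcongr
    have hmono2 : ∀ {a : ℝ} {ν : ℕ∞}, 0 < a → LgX (C * a * EE L a) ν → LgX (C2 * a * EE L a) ν := by
      intro a ν ha h
      refine lgX_mono ?_ h
      have h3 := le_max_right C1 C2
      have h4 : 0 < EE L a := Real.exp_pos _
      gcongr
    have h1' : ∀ (B ε : ℝ) (k : ℕ), 0 < ε → ∃ A δ : ℝ, 0 < δ ∧
        ∀ (a : ℝ) (ν : ℕ∞), A ≤ a → LgX (C * a * EE L a) ν → ∀ (κ : ℝ) (x : ℕ → ℂ), -δ ≤ κ →
          ∑ n ∈ Finset.Icc 2 ⌊Real.exp (2 * a)⌋₊, ‖x n‖ ≤ B → (∀ f, Deg c a ν f → 0 ≤ Vx L κ x a f) →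
            κ ≤ ε ∧ ∀ n, 2 ≤ n → n ≤ k → ‖x n‖ ≤ ε := by
      intro B ε k hε
      obtain ⟨A, δ, hδ, h3⟩ := h1 B ε k hε
      exact ⟨max A 1, δ, hδ, fun a ν ha hν => h3 a ν ((le_max_left _ _).trans ha)
        (hmono1 (lt_of_lt_of_le one_pos ((le_max_right _ _).trans ha)) hν)⟩
    -- repairs of bounded size
    have hrep : R ↔ ∀ ε : ℝ, 0 < ε → ∀ A : ℝ, ∃ (a : ℝ) (ν : ℕ∞) (Q : ℝ) (x : ℕ → ℂ), A ≤ a ∧ LgX (C * a * EE L a) ν ∧
        0 < Q ∧ Real.log (Q / Q0) ≤ Real.exp (ε * a) ∧ ∑ n ∈ Finset.Icc 2 ⌊Real.exp (2 * a)⌋₊, ‖x n‖ ≤ Real.exp (ε * a) ∧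
        ∀ f, Deg c a ν f → 0 ≤ V Q x a f := by
      rw [hR]
      constructor
      · intro hG ε hε A
        refine ⟨max A 1, ⊤, Q0, fun _ => 0, le_max_left _ _, fun n hn => absurd hn.symm (ENat.natCast_ne_top n), hQ0, ?_, ?_, ?_⟩
        · rw [div_self hQ0.ne', Real.log_one]
          exact (Real.exp_pos _).le
        · simp only [norm_zero, Finset.sum_const_zero]
          exact (Real.exp_pos _).le
        · have ha : 0 < max A 1 := lt_of_lt_of_le one_pos (le_max_right _ _)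
          refine hp2 hQ0 ha fun f hf => ?_
          have h3 := W_nonneg hG ha (deg_hn ha hf).hd
          unfold Vx
          rw [div_self hQ0.ne', Real.log_one]
          simpa using h3
      · intro hB
        refine (rep (L := L) c hC).2 fun ε hε A => ?_
        obtain ⟨a, ν, Q, x, ha, hν, hQ, hQB, hl, hp⟩ := hB ε hε (max A 1)
        have ha0 : 0 < a := lt_of_lt_of_le one_pos ((le_max_right _ _).trans ha)
        refine ⟨a, ν, Real.log (Q0 / Q), x, (le_max_left _ _).trans ha, hν, ?_, hl, hp' hQ ha0 hp⟩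
        rw [neg_le, hneg hQ]
        exact hQB
    refine ⟨C, hC, fun B ε k hε => ?_, fun Q x hQ hQQ hl => ?_, hrep, fun k B hB => ?_⟩
    · obtain ⟨A, δ, hδ, h3⟩ := h1' B ε k hε
      refine ⟨max A 1, δ, hδ, fun a ν ha hν Q x hQ hQδ hl hp => ?_⟩
      have ha0 : 0 < a := lt_of_lt_of_le one_pos ((le_max_right _ _).trans ha)
      exact h3 a ν ((le_max_left _ _).trans ha) hν _ _ (by rw [neg_le, hneg hQ]; exact hQδ) hl (hp' hQ ha0 hp)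
    · have hκ : 0 ≤ Real.log (Q0 / Q) := Real.log_nonneg (by rw [le_div_iff₀ hQ]; linarith)
      have h3 := uniq (L := L) c hC h1' hκ hl
      have h4 : (∀ A : ℝ, ∃ (a : ℝ) (ν : ℕ∞), A ≤ a ∧ LgX (C * a * EE L a) ν ∧ ∀ f, Deg c a ν f → 0 ≤ V Q x a f) ↔
          ∀ A : ℝ, ∃ (a : ℝ) (ν : ℕ∞), A ≤ a ∧ LgX (C * a * EE L a) ν ∧ ∀ f, Deg c a ν f → 0 ≤ Vx L (Real.log (Q0 / Q)) x a f := by
        constructor
        · intro h A
          obtain ⟨a, ν, ha, hν, hp⟩ := h (max A 1)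
          exact ⟨a, ν, (le_max_left _ _).trans ha, hν, hp' hQ (lt_of_lt_of_le one_pos ((le_max_right _ _).trans ha)) hp⟩
        · intro h A
          obtain ⟨a, ν, ha, hν, hp⟩ := h (max A 1)
          exact ⟨a, ν, (le_max_left _ _).trans ha, hν, hp2 hQ (lt_of_lt_of_le one_pos ((le_max_right _ _).trans ha)) hp⟩
      rw [h4, h3, hR]
      constructor
      · rintro ⟨h5, h6, h7⟩
        refine ⟨h5, ?_, h7⟩
        have h8 : Q0 / Q = 1 := by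
          have h9 : 0 < Q0 / Q := div_pos hQ0 hQ
          exact Real.eq_one_of_pos_of_log_eq_zero h9 h6
        rw [div_eq_one_iff_eq hQ.ne'] at h8
        exact h8.symm
      · rintro ⟨h5, h6, h7⟩
        exact ⟨h5, by rw [h6, div_self hQ0.ne', Real.log_one], h7⟩
    · -- finitely many weights
      constructor
      · intro h A
        have hG : GRH L := hR.1 h
        have ha : 0 < max A 1 := lt_of_lt_of_le one_pos (le_max_right _ _)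
        refine ⟨max A 1, ⊤, Q0, fun _ => 0, le_max_left _ _, fun n hn => absurd hn.symm (ENat.natCast_ne_top n), hQ0, hB, fun _ _ => rfl, ?_⟩
        refine hp2 hQ0 ha fun f hf => ?_
        have h3 := W_nonneg hG ha (deg_hn ha hf).hd
        unfold Vx
        rw [div_self hQ0.ne', Real.log_one]
        simpa using h3
      · intro h
        obtain ⟨K, A0, hK, h3⟩ := h2 k
        rw [hrep]
        set T : ℝ := K * max 0 (Real.log (B / Q0)) + 1 with hT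
        have hT0 : 0 ≤ T := by rw [hT]; positivity
        intro ε hε A
        obtain ⟨A2, hA2⟩ := eventually_atTop.1 ((exp_grow hε (Real.log (B / Q0))).and (exp_grow hε ((k + 1 : ℕ) * T)))
        obtain ⟨a, ν, Q, x, ha, hν, hQ, hQB, hl, hp⟩ := h (max (max (max A 1) A0) A2)
        have ha2 := hA2 a ((le_max_right _ _).trans ha)
        have ha := (le_max_left _ _).trans ha
        have ha0 : 0 < a := lt_of_lt_of_le one_pos (((le_max_right _ _).trans (le_max_left _ _)).trans ha)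
        refine ⟨a, ν, Q, x, ((le_max_left _ _).trans (le_max_left _ _)).trans ha, hν, hQ,
          (Real.log_le_log (by positivity) (by gcongr)).trans ha2.1, le_trans ?_ ha2.2, hp⟩
        obtain ⟨-, h4⟩ := h3 a ν ((le_max_right _ _).trans ha) (hmono2 ha0 hν) _ _ hl (hp' hQ ha0 hp)
        rw [hneg hQ] at h4
        have h5 : ∀ n, 2 ≤ n → n ≤ k → ‖x n‖ ≤ T := by
          intro n hn hnk
          refine (h4 n hn hnk).trans ?_
          rw [hT, zero_mul, neg_zero, Real.exp_zero]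
          have h6 : Real.log (Q / Q0) ≤ Real.log (B / Q0) := Real.log_le_log (by positivity) (by gcongr)
          gcongr
        calc ∑ n ∈ Finset.Icc 2 ⌊Real.exp (2 * a)⌋₊, ‖x n‖
            ≤ ∑ n ∈ Finset.Icc 2 ⌊Real.exp (2 * a)⌋₊, if n ∈ Finset.range (k + 1) then T else 0 := by
              refine Finset.sum_le_sum fun n hn => ?_
              split_ifs with h6
              · exact h5 n (Finset.mem_Icc.1 hn).1 (by rw [Finset.mem_range] at h6; omega)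
              · rw [Finset.mem_range] at h6
                rw [hl n (by omega), norm_zero]
          _ = ∑ n ∈ (Finset.Icc 2 ⌊Real.exp (2 * a)⌋₊).filter (fun n => n ∈ Finset.range (k + 1)), T := by
              rw [Finset.sum_filter]
          _ ≤ ∑ n ∈ Finset.range (k + 1), T := by
              refine Finset.sum_le_sum_of_subset_of_nonneg (fun n hn => (Finset.mem_filter.1 hn).2) fun _ _ _ => hT0
          _ = _ := by rw [Finset.sum_const, Finset.card_range, nsmul_eq_mul]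

end

end Pool.Agent.Q286.PG
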